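import Mathlib

set_option autoImplicit false
open Filter Topology Cardinal

namespace Pool.Agent.LpSeq

/-- A family of sets of natural numbers is dense open if every infinite set almost contained in
a member is a member and every infinite set contains an infinite member. -/
structure DenseOpen (D : Set (Set ℕ)) : Prop where
  down : ∀ N ∈ D, ∀ M : Set ℕ, M.Infinite → (M \ N).Finite → M ∈ D
  dense : ∀ M : Set ℕ, M.Infinite → ∃ N ∈ D, N ⊆ M ∧ N.Infinite

/-- The distributivity number `𝔥`: the least cardinality of a family of dense open families with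
no infinite set in all of them. -/
noncomputable def distributivityNumber : Cardinal.{0} :=
  sInf {κ | ∃ (ι : Type) (D : ι → Set (Set ℕ)), #ι = κ ∧ (∀ i, DenseOpen (D i)) ∧
    ¬ ∃ N : Set ℕ, N.Infinite ∧ ∀ i, N ∈ D i}

/-- The splitting number `𝔰`: the least cardinality of a family of sets of natural numbers such
that every infinite set is split by a member of the family. -/
noncomputable def splittingNumber : Cardinal.{0} :=
  sInf {κ | ∃ (ι : Type) (S : ι → Set ℕ), #ι = κ ∧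
    ∀ N : Set ℕ, N.Infinite → ∃ i, (N ∩ S i).Infinite ∧ (N \ S i).Infinite}

/-- Countably many dense open families have a common infinite member. -/
lemma denseOpen_nat (D : ℕ → Set (Set ℕ)) (hD : ∀ i, DenseOpen (D i)) :
    ∃ N : Set ℕ, N.Infinite ∧ ∀ i, N ∈ D i := by
  classical
  have step : ∀ i : ℕ, ∀ M : {M : Set ℕ // M.Infinite},
      ∃ N : {N : Set ℕ // N.Infinite}, N.1 ∈ D i ∧ N.1 ⊆ M.1 := by
    intro i M
    obtain ⟨N, h1, h2, h3⟩ := (hD i).dense M.1 M.2
    exact ⟨⟨N, h3⟩, h1, h2⟩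
  choose g hg1 hg2 using step
  let S : ℕ → {M : Set ℕ // M.Infinite} := fun n =>
    Nat.rec (g 0 ⟨Set.univ, Set.infinite_univ⟩) (fun k M => g (k + 1) M) n
  have hS1 : ∀ n, (S n).1 ∈ D n := by
    intro n
    cases n with
    | zero => exact hg1 _ _
    | succ k => exact hg1 _ _
  have hS2 : ∀ n, (S (n + 1)).1 ⊆ (S n).1 := fun n => hg2 _ _
  have hS3 : Antitone (fun n => (S n).1) := antitone_nat_of_succ_le hS2
  obtain ⟨k, hk, hkS⟩ := Filter.extraction_forall_of_frequently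
    (P := fun n m => m ∈ (S n).1) (fun n => Nat.frequently_atTop_iff_infinite.2 (S n).2)
  refine ⟨Set.range k, Set.infinite_range_of_injective hk.injective, fun i => ?_⟩
  refine (hD i).down _ (hS1 i) _ (Set.infinite_range_of_injective hk.injective) ?_
  refine (Set.finite_lt_nat i).image k |>.subset ?_
  rintro _ ⟨⟨n, rfl⟩, hn⟩
  refine ⟨n, ?_, rfl⟩
  by_contra h
  exact hn (hS3 (not_lt.1 h) (hkS n))

lemma denseOpen_countable {ι : Type*} [Countable ι] (D : ι → Set (Set ℕ))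
    (hD : ∀ i, DenseOpen (D i)) : ∃ N : Set ℕ, N.Infinite ∧ ∀ i, N ∈ D i := by
  rcases isEmpty_or_nonempty ι with h | h
  · exact ⟨Set.univ, Set.infinite_univ, fun i => (h.false i).elim⟩
  · obtain ⟨f, hf⟩ := exists_surjective_nat ι
    obtain ⟨N, hN, hN2⟩ := denseOpen_nat (fun n => D (f n)) (fun n => hD (f n))
    refine ⟨N, hN, fun i => ?_⟩
    obtain ⟨n, rfl⟩ := hf i
    exact hN2 n

/-- every infinite set is the union of two disjoint infinite sets -/
lemma exists_halves (M : Set ℕ) (hM : M.Infinite) : ∃ A B : Set ℕ, A ⊆ M ∧ B ⊆ M ∧ A.Infinite ∧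
    B.Infinite ∧ Disjoint A B := by
  classical
  have := hM.to_subtype
  set e := Nat.Subtype.orderIsoOfNat M with he
  have hinj : Function.Injective (fun n => (e n : ℕ)) :=
    Subtype.val_injective.comp e.injective
  refine ⟨Set.range (fun n => (e (2 * n) : ℕ)), Set.range (fun n => (e (2 * n + 1) : ℕ)), ?_, ?_,
    ?_, ?_, ?_⟩
  · rintro _ ⟨n, rfl⟩
    exact (e (2 * n)).2
  · rintro _ ⟨n, rfl⟩
    exact (e (2 * n + 1)).2
  · refine Set.infinite_range_of_injective (fun a b hab => ?_)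
    have := hinj hab
    omega
  · refine Set.infinite_range_of_injective (fun a b hab => ?_)
    have := hinj hab
    omega
  · rw [Set.disjoint_left]
    rintro _ ⟨n, rfl⟩ ⟨m, hm⟩
    have := hinj hm
    omega

lemma infinite_sdiff_or {N A B : Set ℕ} (hN : N.Infinite) (h : Disjoint A B) :
    (N \ A).Infinite ∨ (N \ B).Infinite := by
  by_contra hcon
  push Not at hcon
  obtain ⟨h1, h2⟩ := hcon
  apply hN
  refine (h1.union h2).subset (fun x hx => ?_)
  by_cases hxA : x ∈ A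
  · exact Or.inr ⟨hx, fun hxB => Set.disjoint_left.1 h hxA hxB⟩
  · exact Or.inl ⟨hx, hxA⟩

/-- `𝔥` is uncountable. -/
theorem aleph0_lt_distributivityNumber : ℵ₀ < distributivityNumber := by
  have hne : {κ : Cardinal.{0} | ∃ (ι : Type) (D : ι → Set (Set ℕ)), #ι = κ ∧
      (∀ i, DenseOpen (D i)) ∧ ¬ ∃ N : Set ℕ, N.Infinite ∧ ∀ i, N ∈ D i}.Nonempty := by
    refine ⟨_, {N : Set ℕ // N.Infinite}, fun N => {M | M.Infinite ∧ (N.1 \ M).Infinite}, rfl,
      ?_, ?_⟩
    · intro N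
      refine ⟨?_, ?_⟩
      · rintro M ⟨hM1, hM2⟩ M' hM' hfin
        refine ⟨hM', ?_⟩
        refine (hM2.sdiff hfin).mono ?_
        rintro x ⟨⟨hx1, hx2⟩, hx3⟩
        exact ⟨hx1, fun hx4 => hx3 ⟨hx4, hx2⟩⟩
      · intro M hM
        obtain ⟨A, B, hA, hB, hAi, hBi, hAB⟩ := exists_halves M hM
        rcases infinite_sdiff_or N.2 hAB with h | h
        · exact ⟨A, ⟨hAi, h⟩, hA, hAi⟩
        · exact ⟨B, ⟨hBi, h⟩, hB, hBi⟩
    · rintro ⟨N, hN, h⟩
      have := (h ⟨N, hN⟩).2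
      simp at this
  obtain ⟨ι, D, hι, hD, hno⟩ := csInf_mem hne
  by_contra hcon
  push Not at hcon
  have h1 : #ι ≤ ℵ₀ := by
    rw [hι]
    exact hcon
  have : Countable ι := Cardinal.mk_le_aleph0_iff.1 h1
  exact hno (denseOpen_countable D hD)

/-- Fewer than `𝔥` dense open families have a common infinite member. -/
lemma denseOpen_lt {ι : Type} (hι : #ι < distributivityNumber) (D : ι → Set (Set ℕ))
    (hD : ∀ i, DenseOpen (D i)) : ∃ N : Set ℕ, N.Infinite ∧ ∀ i, N ∈ D i := by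
  by_contra hcon
  exact notMem_of_lt_csInf' hι ⟨ι, D, rfl, hD, hcon⟩

/-- the sets not split by a given set form a dense open family -/
lemma denseOpen_unsplit (S : Set ℕ) : DenseOpen {N | (N ∩ S).Finite ∨ (N \ S).Finite} := by
  refine ⟨?_, ?_⟩
  · rintro N hN M hM hfin
    rcases hN with h | h
    · left
      refine (h.union hfin).subset ?_
      rintro x ⟨hx1, hx2⟩
      by_cases hx : x ∈ N
      · exact Or.inl ⟨hx, hx2⟩
      · exact Or.inr ⟨hx1, hx⟩
    · right
      refine (h.union hfin).subset ?_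
      rintro x ⟨hx1, hx2⟩
      by_cases hx : x ∈ N
      · exact Or.inl ⟨hx, hx2⟩
      · exact Or.inr ⟨hx1, hx⟩
  · intro M hM
    by_cases h : (M ∩ S).Finite
    · refine ⟨M \ S, Or.inl ?_, Set.sdiff_subset, ?_⟩
      · rw [Set.sdiff_inter_self]
        exact Set.finite_empty
      · have : (M \ (M ∩ S)).Infinite := hM.sdiff h
        simpa using this
    · refine ⟨M ∩ S, Or.inr ?_, Set.inter_subset_left, h⟩
      rw [Set.sdiff_eq_empty.2 Set.inter_subset_right]
      exact Set.finite_empty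

/-- `𝔰` is uncountable. -/
theorem aleph0_lt_splittingNumber : ℵ₀ < splittingNumber := by
  have hne : {κ : Cardinal.{0} | ∃ (ι : Type) (S : ι → Set ℕ), #ι = κ ∧
    ∀ N : Set ℕ, N.Infinite → ∃ i, (N ∩ S i).Infinite ∧ (N \ S i).Infinite}.Nonempty := by
    refine ⟨_, Set ℕ, id, rfl, fun N hN => ?_⟩
    obtain ⟨A, B, hA, hB, hAi, hBi, hAB⟩ := exists_halves N hN
    refine ⟨A, ?_, ?_⟩
    · rw [id, Set.inter_eq_right.2 hA]
      exact hAi
    · refine hBi.mono (fun x hx => ⟨hB hx, fun hxA => Set.disjoint_left.1 hAB hxA hx⟩)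
  obtain ⟨ι, S, hι, hS⟩ := csInf_mem hne
  by_contra hcon
  push Not at hcon
  have h1 : #ι ≤ ℵ₀ := by
    rw [hι]
    exact hcon
  have : Countable ι := Cardinal.mk_le_aleph0_iff.1 h1
  obtain ⟨N, hN, h2⟩ := denseOpen_countable _ (fun i => denseOpen_unsplit (S i))
  obtain ⟨i, h3, h4⟩ := hS N hN
  rcases h2 i with h5 | h5
  · exact h3 h5
  · exact h4 h5

/-- Fewer than `𝔰` sets do not split some infinite set. -/
lemma unsplit_lt {ι : Type} (hι : #ι < splittingNumber) (S : ι → Set ℕ) :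
    ∃ N : Set ℕ, N.Infinite ∧ ∀ i, (N ∩ S i).Finite ∨ (N \ S i).Finite := by
  by_contra hcon
  refine notMem_of_lt_csInf' hι ⟨ι, S, rfl, fun N hN => ?_⟩
  by_contra h
  apply hcon
  refine ⟨N, hN, fun i => ?_⟩
  by_contra h2
  apply h
  rw [not_or] at h2
  exact ⟨i, h2.1, h2.2⟩

/-- convergence of a real sequence along a filter -/
def Cv (F : Filter ℕ) (u : ℕ → ℝ) : Prop := ∃ l : ℝ, Tendsto u F (𝓝 l)

lemma Cv.of_approx {F : Filter ℕ} [NeBot F] {u : ℕ → ℝ}
    (h : ∀ ε > 0, ∃ v : ℕ → ℝ, Cv F v ∧ ∀ n, |u n - v n| ≤ ε) : Cv F u := by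
  unfold Cv
  rw [← cauchy_map_iff_exists_tendsto, Metric.cauchy_iff]
  refine ⟨inferInstance, fun ε hε => ?_⟩
  obtain ⟨v, hv, huv⟩ := h (ε / 4) (by positivity)
  obtain ⟨l, hl⟩ := hv
  have h1 : ∀ᶠ n in F, dist (v n) l < ε / 4 := Metric.tendsto_nhds.1 hl _ (by positivity)
  refine ⟨u '' {n | dist (v n) l < ε / 4}, image_mem_map h1, ?_⟩
  rintro _ ⟨n, hn, rfl⟩ _ ⟨m, hm, rfl⟩
  have h2 := huv n
  have h3 := huv m
  simp only [Set.mem_ofPred_eq, Real.dist_eq] at hn hm ⊢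
  rw [abs_lt] at *
  rw [abs_le] at h2 h3
  constructor <;> linarith [h2.1, h2.2, h3.1, h3.2, hn.1, hn.2, hm.1, hm.2]

lemma Cv.add {F : Filter ℕ} {u v : ℕ → ℝ} (hu : Cv F u) (hv : Cv F v) :
    Cv F (fun n => u n + v n) := by
  obtain ⟨a, ha⟩ := hu
  obtain ⟨b, hb⟩ := hv
  exact ⟨a + b, ha.add hb⟩

lemma Cv.sub {F : Filter ℕ} {u v : ℕ → ℝ} (hu : Cv F u) (hv : Cv F v) :
    Cv F (fun n => u n - v n) := by
  obtain ⟨a, ha⟩ := hu
  obtain ⟨b, hb⟩ := hv
  exact ⟨a - b, ha.sub hb⟩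

lemma Cv.const_mul {F : Filter ℕ} {u : ℕ → ℝ} (c : ℝ) (hu : Cv F u) :
    Cv F (fun n => c * u n) := by
  obtain ⟨a, ha⟩ := hu
  exact ⟨c * a, ha.const_mul c⟩

lemma Cv.sum {F : Filter ℕ} {ι : Type*} (s : Finset ι) {u : ι → ℕ → ℝ}
    (hu : ∀ i ∈ s, Cv F (u i)) : Cv F (fun n => ∑ i ∈ s, u i n) := by
  classical
  induction s using Finset.induction_on with
  | empty => exact ⟨0, by simpa using tendsto_const_nhds⟩
  | insert a s ha ih =>
    simp only [Finset.sum_insert ha]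
    exact (hu a (Finset.mem_insert_self a s)).add
      (ih (fun i hi => hu i (Finset.mem_insert_of_mem hi)))

lemma map_strictMono {j : ℕ → ℕ} (hj : StrictMono j) :
    map j atTop = atTop ⊓ 𝓟 (Set.range j) := by
  have h : comap j atTop = atTop :=
    Filter.comap_embedding_atTop (fun a b => hj.le_iff_le) (fun c => ⟨c, hj.le_apply⟩)
  rw [← Filter.map_comap, h]

/-- along an infinite set which no level set splits, a bounded sequence converges -/
lemma cv_of_unsplit (N : Set ℕ) (hN : N.Infinite) (u : ℕ → ℝ) (C : ℝ) (hu : ∀ n, |u n| ≤ C)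
    (h : ∀ q : ℚ, (N ∩ {n | (q : ℝ) < u n}).Finite ∨ (N \ {n | (q : ℝ) < u n}).Finite) :
    Cv (atTop ⊓ 𝓟 N) u := by
  have : NeBot (atTop ⊓ 𝓟 N) := by
    rw [← Nat.cofinite_eq_atTop]
    exact hN.cofinite_inf_principal_neBot
  have hle : (atTop ⊓ 𝓟 N) ≤ cofinite := by
    rw [← Nat.cofinite_eq_atTop]
    exact inf_le_left
  have hbdd : IsBoundedUnder (· ≤ ·) (atTop ⊓ 𝓟 N) u :=
    isBoundedUnder_of ⟨C, fun n => (abs_le.1 (hu n)).2⟩
  have hbdd2 : IsBoundedUnder (· ≥ ·) (atTop ⊓ 𝓟 N) u :=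
    isBoundedUnder_of ⟨-C, fun n => (abs_le.1 (hu n)).1⟩
  refine ⟨limsup u (atTop ⊓ 𝓟 N), tendsto_of_le_liminf_of_limsup_le ?_ le_rfl hbdd hbdd2⟩
  by_contra hcon
  push Not at hcon
  obtain ⟨q, hq1, hq2⟩ := exists_rat_btwn hcon
  rcases h q with h1 | h1
  · have h2 : ∀ᶠ n in atTop ⊓ 𝓟 N, u n ≤ q := by
      rw [eventually_inf_principal, ← Nat.cofinite_eq_atTop, Filter.eventually_cofinite]
      refine h1.subset (fun n hn => ?_)
      simp only [Set.mem_ofPred_eq, Classical.not_imp, not_le] at hn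
      exact ⟨hn.1, hn.2⟩
    have h3 := limsup_le_of_le hbdd2.isCoboundedUnder_le h2
    linarith
  · have h2 : ∀ᶠ n in atTop ⊓ 𝓟 N, (q : ℝ) ≤ u n := by
      rw [eventually_inf_principal, ← Nat.cofinite_eq_atTop, Filter.eventually_cofinite]
      refine h1.subset (fun n hn => ?_)
      simp only [Set.mem_ofPred_eq, Classical.not_imp, not_le] at hn
      refine ⟨hn.1, fun h => ?_⟩
      have h4 : (q : ℝ) < u n := h
      exact absurd h4 (not_lt.2 hn.2.le)
    have h3 := le_liminf_of_le hbdd.isCoboundedUnder_ge h2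
    linarith

end Pool.Agent.LpSeq
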