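import Pool.Agent.LpSeq.Density
import Pool.Agent.LpSeq.Dist

set_option autoImplicit false
open MeasureTheory Filter Topology
open scoped ENNReal symmDiff

namespace Pool.Agent.LpSeq

set_option linter.unusedSectionVars false

section general

variable {E : Type*} [NormedAddCommGroup E] [NormedSpace ℝ E]

/-- Every sequence in the dual unit ball has a weak* convergent subsequence. -/
def WStarSeqCompact (E : Type*) [NormedAddCommGroup E] [NormedSpace ℝ E] : Prop :=
  ∀ φ : ℕ → (E →L[ℝ] ℝ), (∀ n, ‖φ n‖ ≤ 1) →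
    ∃ ψ : E →L[ℝ] ℝ, ‖ψ‖ ≤ 1 ∧ ∃ k : ℕ → ℕ, StrictMono k ∧
      ∀ x : E, Tendsto (fun n => φ (k n) x) atTop (𝓝 (ψ x))

lemma neBot_inf {N : Set ℕ} (hN : N.Infinite) : NeBot (atTop ⊓ 𝓟 N) := by
  rw [← Nat.cofinite_eq_atTop]
  exact hN.cofinite_inf_principal_neBot

lemma cv_closed (φ : ℕ → (E →L[ℝ] ℝ)) (hφ : ∀ n, ‖φ n‖ ≤ 1) (F : Filter ℕ) [NeBot F] :
    IsClosed {x : E | Cv F (fun n => φ n x)} := by
  rw [← closure_subset_iff_isClosed]
  intro x hx
  refine Cv.of_approx (fun ε hε => ?_)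
  obtain ⟨y, hy, hxy⟩ := Metric.mem_closure_iff.1 hx ε hε
  refine ⟨_, hy, fun n => ?_⟩
  rw [← map_sub, ← Real.norm_eq_abs]
  refine ((φ n).le_opNorm _).trans ?_
  rw [← dist_eq_norm]
  calc ‖φ n‖ * dist x y ≤ 1 * dist x y := by gcongr; exact hφ n
    _ ≤ ε := by linarith

/-- from convergence along an infinite set to a convergent subsequence -/
theorem finish (φ : ℕ → (E →L[ℝ] ℝ)) (hφ : ∀ n, ‖φ n‖ ≤ 1) (N : Set ℕ) (hN : N.Infinite)
    (h : ∀ x, Cv (atTop ⊓ 𝓟 N) (fun n => φ n x)) :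
    ∃ ψ : E →L[ℝ] ℝ, ‖ψ‖ ≤ 1 ∧ ∃ k : ℕ → ℕ, StrictMono k ∧
      ∀ x : E, Tendsto (fun n => φ (k n) x) atTop (𝓝 (ψ x)) := by
  classical
  have := neBot_inf hN
  choose L hL using h
  have hb : ∀ x, |L x| ≤ 1 * ‖x‖ := by
    intro x
    refine le_of_tendsto (hL x).abs (Eventually.of_forall (fun n => ?_))
    rw [← Real.norm_eq_abs]
    refine ((φ n).le_opNorm x).trans ?_
    gcongr
    exact hφ n
  let ψ : E →L[ℝ] ℝ := LinearMap.mkContinuous
    { toFun := L
      map_add' := fun x y => by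
        refine tendsto_nhds_unique (hL (x + y)) ?_
        have := (hL x).add (hL y)
        exact this.congr (fun n => by rw [map_add])
      map_smul' := fun c x => by
        refine tendsto_nhds_unique (hL (c • x)) ?_
        have := (hL x).const_mul c
        exact this.congr (fun n => by rw [map_smul, smul_eq_mul]) } 1 hb
  have hinf := hN.to_subtype
  set e := Nat.Subtype.orderIsoOfNat N with he
  have hmono : StrictMono (fun n => (e n : ℕ)) := fun a b hab => e.strictMono hab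
  refine ⟨ψ, LinearMap.mkContinuous_norm_le _ zero_le_one _, fun n => (e n : ℕ), hmono, ?_⟩
  intro x
  have h1 : Tendsto (fun n => (e n : ℕ)) atTop (atTop ⊓ 𝓟 N) := by
    rw [tendsto_inf]
    exact ⟨hmono.tendsto_atTop, tendsto_principal.2 (Eventually.of_forall (fun n => (e n).2))⟩
  exact (hL x).comp h1

/-- weak* sequential compactness gives dense open families of sets of convergence -/
lemma denseOpen_cv (hE : WStarSeqCompact E) (u : ℕ → (E →L[ℝ] ℝ)) (hu : ∀ n, ‖u n‖ ≤ 1) :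
    DenseOpen {N | ∀ x, Cv (atTop ⊓ 𝓟 N) (fun n => u n x)} := by
  classical
  refine ⟨?_, ?_⟩
  · intro N hN M hM hfin x
    obtain ⟨l, hl⟩ := hN x
    refine ⟨l, hl.mono_left ?_⟩
    rw [le_inf_iff]
    refine ⟨inf_le_left, ?_⟩
    rw [le_principal_iff, mem_inf_principal, ← Nat.cofinite_eq_atTop, mem_cofinite]
    refine hfin.subset (fun n hn => ?_)
    simp only [Set.mem_compl_iff, Set.mem_ofPred_eq, Classical.not_imp] at hn
    exact hn
  · intro M hM
    have hinf := hM.to_subtype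
    set e := Nat.Subtype.orderIsoOfNat M with he
    have hmono : StrictMono (fun n => (e n : ℕ)) := fun a b hab => e.strictMono hab
    obtain ⟨ψ, -, k, hk, hψ⟩ := hE (fun n => u (e n)) (fun n => hu _)
    have hmk : StrictMono (fun n => (e (k n) : ℕ)) := hmono.comp hk
    refine ⟨Set.range (fun n => (e (k n) : ℕ)), ?_, ?_,
      Set.infinite_range_of_injective hmk.injective⟩
    · intro x
      refine ⟨ψ x, ?_⟩
      rw [← map_strictMono hmk, tendsto_map'_iff]
      exact hψ x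
    · rintro _ ⟨n, rfl⟩
      exact (e (k n)).2

/-- the staircase approximation of a number in `[0,1]` -/
lemma staircase (N : ℕ) (hN : 0 < N) (t : ℝ) (h0 : 0 ≤ t) (h1 : t ≤ 1) :
    |t - (N : ℝ)⁻¹ * ∑ j ∈ Finset.range N, (if ((j : ℝ) + 1) ≤ N * t then (1 : ℝ) else 0)| ≤
      (N : ℝ)⁻¹ := by
  have hN' : (0 : ℝ) < N := by exact_mod_cast hN
  have h2 : ∑ j ∈ Finset.range N, (if ((j : ℝ) + 1) ≤ N * t then (1 : ℝ) else 0) =
      (⌊(N : ℝ) * t⌋₊ : ℝ) := by
    rw [← Finset.sum_filter, Finset.sum_const, nsmul_eq_mul, mul_one]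
    congr 1
    have : Finset.filter (fun j : ℕ => ((j : ℝ) + 1) ≤ N * t) (Finset.range N) =
        Finset.range ⌊(N : ℝ) * t⌋₊ := by
      ext j
      simp only [Finset.mem_filter, Finset.mem_range]
      have h3 : ((j : ℝ) + 1) ≤ N * t ↔ j < ⌊(N : ℝ) * t⌋₊ := by
        rw [← Nat.succ_le_iff, Nat.le_floor_iff (by positivity)]
        push_cast
        rfl
      rw [h3]
      constructor
      · exact fun h => h.2
      · intro h
        refine ⟨?_, h⟩
        have h4 : ⌊(N : ℝ) * t⌋₊ ≤ N := by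
          apply Nat.floor_le_of_le
          nlinarith
        omega
    rw [this, Finset.card_range]
  rw [h2]
  have h5 := Nat.floor_le (show 0 ≤ (N : ℝ) * t by positivity)
  have h6 := Nat.lt_floor_add_one ((N : ℝ) * t)
  have h7 : t - (N : ℝ)⁻¹ * (⌊(N : ℝ) * t⌋₊ : ℝ) = (N : ℝ)⁻¹ * ((N : ℝ) * t - ⌊(N : ℝ) * t⌋₊) := by
    field_simp
  rw [h7, abs_mul, abs_of_pos (inv_pos.2 hN'), abs_of_nonneg (by linarith)]
  have h8 : (N : ℝ) * t - ⌊(N : ℝ) * t⌋₊ ≤ 1 := by linarith
  calc (N : ℝ)⁻¹ * ((N : ℝ) * t - ⌊(N : ℝ) * t⌋₊) ≤ (N : ℝ)⁻¹ * 1 := by gcongr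
    _ = (N : ℝ)⁻¹ := mul_one _

end general

variable {Ω : Type*} [MeasurableSpace Ω] {μ : Measure Ω} [IsProbabilityMeasure μ]
  {X : Type*} [NormedAddCommGroup X] [NormedSpace ℝ X]
  {p : ℝ≥0∞} [Fact (1 ≤ p)]

lemma nu_univ_le (hp : p ≠ ⊤) (φ : Lp X p μ →L[ℝ] ℝ) : (nu hp φ).real Set.univ ≤ ‖φ‖ := by
  have h := variation_univ_le hp φ
  rw [measureReal_def]
  exact ENNReal.toReal_le_of_le_ofReal (norm_nonneg _) h

lemma integral_abs_den_le_nu (hp : p ≠ ⊤) (φ : Lp X p μ →L[ℝ] ℝ) (x : X) :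
    ∫ ω, |den hp φ x ω| ∂μ ≤ (nu hp φ).real Set.univ * ‖x‖ := by
  set g := den hp φ x with hg
  have hgi : Integrable g μ := integrable_den hp φ x
  have hgm : Measurable g := measurable_den hp φ x
  have hP : MeasurableSet {ω | 0 ≤ g ω} := measurableSet_le measurable_const hgm
  rw [← integral_add_compl hP hgi.abs]
  have e2 : ∫ ω in {ω | 0 ≤ g ω}, |g ω| ∂μ = ∫ ω in {ω | 0 ≤ g ω}, g ω ∂μ :=
    setIntegral_congr_fun hP (fun ω hω => abs_of_nonneg hω)
  have e3 : ∫ ω in {ω | 0 ≤ g ω}ᶜ, |g ω| ∂μ = - ∫ ω in {ω | 0 ≤ g ω}ᶜ, g ω ∂μ := by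
    rw [← integral_neg]
    refine setIntegral_congr_fun hP.compl (fun ω hω => ?_)
    have : g ω < 0 := by simpa using hω
    exact abs_of_neg this
  rw [e2, e3, setIntegral_den hp φ _ hP, setIntegral_den hp φ _ hP.compl]
  have h1 := abs_le_nu hp φ hP x
  have h2 := abs_le_nu hp φ hP.compl x
  have h3 := (abs_le.1 h1).2
  have h4 := (abs_le.1 h2).1
  have h5 : (nu hp φ).real {ω | 0 ≤ g ω} + (nu hp φ).real {ω | 0 ≤ g ω}ᶜ =
      (nu hp φ).real Set.univ := measureReal_add_measureReal_compl hP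
  rw [← h5, add_mul]
  linarith

lemma integral_abs_den_le (hp : p ≠ ⊤) (φ : Lp X p μ →L[ℝ] ℝ) (x : X) :
    ∫ ω, |den hp φ x ω| ∂μ ≤ ‖φ‖ * ‖x‖ := by
  refine (integral_abs_den_le_nu hp φ x).trans ?_
  gcongr
  exact nu_univ_le hp φ

lemma den_add (hp : p ≠ ⊤) (φ : Lp X p μ →L[ℝ] ℝ) (x y : X) :
    den hp φ (x + y) =ᵐ[μ] fun ω => den hp φ x ω + den hp φ y ω := by
  refine Integrable.ae_eq_of_forall_setIntegral_eq _ _ (integrable_den hp φ _)
    ((integrable_den hp φ x).add (integrable_den hp φ y)) (fun A hA _ => ?_)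
  rw [setIntegral_den hp φ _ hA]
  rw [integral_add (integrable_den hp φ x).integrableOn (integrable_den hp φ y).integrableOn,
    setIntegral_den hp φ _ hA, setIntegral_den hp φ _ hA, ind_add, map_add]

lemma den_smul (hp : p ≠ ⊤) (φ : Lp X p μ →L[ℝ] ℝ) (c : ℝ) (x : X) :
    den hp φ (c • x) =ᵐ[μ] fun ω => c * den hp φ x ω := by
  refine Integrable.ae_eq_of_forall_setIntegral_eq _ _ (integrable_den hp φ _)
    ((integrable_den hp φ x).const_mul c) (fun A hA _ => ?_)
  rw [setIntegral_den hp φ _ hA, integral_const_mul, setIntegral_den hp φ _ hA, ind_smul,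
    map_smul, smul_eq_mul]

lemma indT_sub_eq {A B : Set Ω} (hA : MeasurableSet A) (hB : MeasurableSet B) (x : X) :
    indT μ p B x - indT μ p A x = indT μ p (B \ A) x - indT μ p (A \ B) x := by
  rw [indT_eq hA, indT_eq hB, indT_eq (hB.diff hA), indT_eq (hA.diff hB)]
  have h1 : ind μ p B hB x = ind μ p (B ∩ A) (hB.inter hA) x + ind μ p (B \ A) (hB.diff hA) x := by
    rw [← ind_union _ _ _ _ (Set.disjoint_left.2 (fun ω h1 h2 => h2.2 h1.2))]
    congr 1
    rw [Set.inter_union_sdiff]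
  have h2 : ind μ p A hA x = ind μ p (B ∩ A) (hB.inter hA) x + ind μ p (A \ B) (hA.diff hB) x := by
    rw [← ind_union _ _ _ _ (Set.disjoint_left.2 (fun ω h1 h2 => h2.2 h1.1))]
    congr 1
    rw [Set.inter_comm, Set.inter_union_sdiff]
  rw [h1, h2]
  abel

lemma abs_indT_sub_le (hp : p ≠ ⊤) (φ : Lp X p μ →L[ℝ] ℝ) (hφ : ‖φ‖ ≤ 1) {A B : Set Ω}
    (hA : MeasurableSet A) (hB : MeasurableSet B) (x : X) :
    |φ (indT μ p B x) - φ (indT μ p A x)| ≤ 2 * ‖x‖ * μ.real (B ∆ A) ^ (1 / p.toReal) := by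
  rw [← map_sub, indT_sub_eq hA hB, ← Real.norm_eq_abs]
  have h0 : ∀ S : Set Ω, MeasurableSet S → S ⊆ B ∆ A →
      ‖indT μ p S x‖ ≤ ‖x‖ * μ.real (B ∆ A) ^ (1 / p.toReal) := by
    intro S hS hSB
    rw [indT_eq hS]
    refine (norm_ind_le hp S hS x).trans ?_
    have h9 : μ.real S ≤ μ.real (B ∆ A) := measureReal_mono hSB (measure_ne_top μ _)
    gcongr
  calc ‖φ (indT μ p (B \ A) x - indT μ p (A \ B) x)‖
      ≤ ‖φ‖ * ‖indT μ p (B \ A) x - indT μ p (A \ B) x‖ := φ.le_opNorm _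
    _ ≤ 1 * (‖indT μ p (B \ A) x‖ + ‖indT μ p (A \ B) x‖) := by
        gcongr
        exact norm_sub_le _ _
    _ ≤ 1 * (‖x‖ * μ.real (B ∆ A) ^ (1 / p.toReal) + ‖x‖ * μ.real (B ∆ A) ^ (1 / p.toReal)) := by
        gcongr
        · exact h0 _ (hB.diff hA) (fun ω h => Or.inl h)
        · exact h0 _ (hA.diff hB) (fun ω h => Or.inr h)
    _ = _ := by ring

/-- approximation in measure preserves convergence -/
lemma cv_of_measure_approx (hp : p ≠ ⊤) (φ : ℕ → Lp X p μ →L[ℝ] ℝ) (hφ : ∀ n, ‖φ n‖ ≤ 1)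
    (F : Filter ℕ) [NeBot F] (B : Set Ω) (hB : MeasurableSet B) (x : X)
    (h : ∀ ε > 0, ∃ A : Set Ω, MeasurableSet A ∧ μ.real (B ∆ A) < ε ∧
      Cv F (fun n => φ n (indT μ p A x))) : Cv F (fun n => φ n (indT μ p B x)) := by
  refine Cv.of_approx (fun ε hε => ?_)
  have h1 : Tendsto (fun t : ℝ => 2 * ‖x‖ * t ^ (1 / p.toReal)) (𝓝 0) (𝓝 0) := by
    have := (rpow_tendsto (p := p) hp (tendsto_id (x := 𝓝 (0 : ℝ)))).const_mul (2 * ‖x‖)
    simpa using this
  have h2 : ∀ᶠ t in 𝓝 (0 : ℝ), 2 * ‖x‖ * t ^ (1 / p.toReal) < ε := h1.eventually_lt_const hε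
  obtain ⟨δ, hδ, hδ2⟩ := Metric.eventually_nhds_iff.1 h2
  obtain ⟨A, hA, hAB, hcv⟩ := h δ hδ
  refine ⟨_, hcv, fun n => ?_⟩
  refine (abs_indT_sub_le hp (φ n) (hφ n) hA hB x).trans (le_of_lt ?_)
  apply hδ2
  rw [Real.dist_eq, sub_zero, abs_of_nonneg measureReal_nonneg]
  exact hAB

lemma indT_empty (x : X) : indT μ p ∅ x = 0 := by
  rw [indT_eq MeasurableSet.empty, ind]
  simp

lemma indT_union {A B : Set Ω} (hA : MeasurableSet A) (hB : MeasurableSet B) (h : Disjoint A B)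
    (x : X) : indT μ p (A ∪ B) x = indT μ p A x + indT μ p B x := by
  rw [indT_eq hA, indT_eq hB, indT_eq (hA.union hB), ind_union _ _ _ _ h]

lemma indT_compl {A : Set Ω} (hA : MeasurableSet A) (x : X) :
    indT μ p Aᶜ x = indT μ p Set.univ x - indT μ p A x := by
  rw [← Set.union_compl_self A, indT_union hA hA.compl disjoint_compl_right]
  abel

lemma cv_of_generateFrom (hp : p ≠ ⊤) (φ : ℕ → Lp X p μ →L[ℝ] ℝ) (hφ : ∀ n, ‖φ n‖ ≤ 1)
    (F : Filter ℕ) [NeBot F] (C : Set (Set Ω)) (hC : IsPiSystem C)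
    (hCm : ∀ A ∈ C, MeasurableSet A) (hu : Set.univ ∈ C) (x : X)
    (h : ∀ A ∈ C, Cv F (fun n => φ n (indT μ p A x))) :
    ∀ B, MeasurableSet[MeasurableSpace.generateFrom C] B →
      Cv F (fun n => φ n (indT μ p B x)) := by
  have hle : MeasurableSpace.generateFrom C ≤ ‹MeasurableSpace Ω› :=
    MeasurableSpace.generateFrom_le hCm
  refine MeasurableSpace.induction_on_inter (m := MeasurableSpace.generateFrom C)
    (C := fun B _ => Cv F (fun n => φ n (indT μ p B x))) rfl hC ?_ h ?_ ?_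
  · refine ⟨0, ?_⟩
    simp only [indT_empty, map_zero]
    exact tendsto_const_nhds
  · intro A hA hcv
    have := (h _ hu).sub hcv
    refine (Eq.mp ?_ this)
    congr 1
    ext n
    rw [indT_compl (hle _ hA), map_sub]
  · intro f hd hf hcv
    have hfm : ∀ i, MeasurableSet (f i) := fun i => hle _ (hf i)
    have hfin : ∀ m : ℕ, Cv F (fun n => φ n (indT μ p (⋃ i ∈ Finset.range m, f i) x)) := by
      intro m
      induction m with
      | zero =>
        refine ⟨0, ?_⟩
        simp only [Finset.range_zero, Finset.notMem_empty, Set.iUnion_of_empty,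
          Set.iUnion_empty, indT_empty, map_zero]
        exact tendsto_const_nhds
      | succ m ih =>
        have h3 := (hcv m).add ih
        refine (Eq.mp ?_ h3)
        congr 1
        ext n
        rw [Finset.range_add_one, Finset.set_biUnion_insert, indT_union (hfm m)
          (Finset.measurableSet_biUnion _ (fun i _ => hfm i)), map_add]
        rw [Set.disjoint_iUnion₂_right]
        intro i hi
        refine hd ?_
        have := Finset.mem_range.1 hi
        omega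
    refine cv_of_measure_approx hp φ hφ F _ (MeasurableSet.iUnion hfm) x (fun ε hε => ?_)
    have h4 : Tendsto (fun m => μ.real (⋃ i ∈ Finset.range m, f i)) atTop
        (𝓝 (μ.real (⋃ i, f i))) := by
      have hs : HasSum (fun i => μ.real (f i)) (μ.real (⋃ i, f i)) := by
        have h1 := μ.toSignedMeasure.m_iUnion hfm hd
        simpa [Measure.toSignedMeasure_apply_measurable, hfm, MeasurableSet.iUnion hfm] using h1
      have h5 := hs.tendsto_sum_nat
      refine h5.congr (fun m => ?_)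
      rw [measureReal_biUnion_finset]
      · intro i _ j _ hij
        exact hd hij
      · intro i _
        exact hfm i
    have h6 := (Metric.tendsto_atTop.1 h4) ε hε
    obtain ⟨m, hm⟩ := h6
    have h7 := hm m le_rfl
    have hsub : (⋃ i ∈ Finset.range m, f i) ⊆ ⋃ i, f i := Set.iUnion₂_subset_iUnion _ _
    have hFm : MeasurableSet (⋃ i ∈ Finset.range m, f i) :=
      Finset.measurableSet_biUnion _ (fun i _ => hfm i)
    refine ⟨⋃ i ∈ Finset.range m, f i, hFm, ?_, hfin m⟩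
    have h8 : (⋃ i, f i) ∆ (⋃ i ∈ Finset.range m, f i) = (⋃ i, f i) \ ⋃ i ∈ Finset.range m, f i := by
      rw [Set.symmDiff_def, Set.sdiff_eq_empty.2 hsub, Set.union_empty]
    rw [h8, measureReal_sdiff hsub hFm]
    rw [Real.dist_eq, abs_lt] at h7
    linarith [h7.1]

/-- convergence of the integrals against a bounded `m`-measurable function -/
lemma cv_integral (hp : p ≠ ⊤) (φ : ℕ → Lp X p μ →L[ℝ] ℝ) (hφ : ∀ n, ‖φ n‖ ≤ 1)
    (F : Filter ℕ) [NeBot F] (C : Set (Set Ω)) (hCm : ∀ A ∈ C, MeasurableSet A) (x : X)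
    (h : ∀ B, MeasurableSet[MeasurableSpace.generateFrom C] B →
      Cv F (fun n => φ n (indT μ p B x)))
    (g : Ω → ℝ) (hg : Measurable[MeasurableSpace.generateFrom C] g)
    (hg0 : ∀ᵐ ω ∂μ, 0 ≤ g ω) (hg1 : ∀ᵐ ω ∂μ, g ω ≤ 1) :
    Cv F (fun n => ∫ ω, g ω * den hp (φ n) x ω ∂μ) := by
  classical
  have hle : MeasurableSpace.generateFrom C ≤ ‹MeasurableSpace Ω› :=
    MeasurableSpace.generateFrom_le hCm
  refine Cv.of_approx (fun ε hε => ?_)
  obtain ⟨N, hN0, hN⟩ : ∃ N : ℕ, 0 < N ∧ (N : ℝ)⁻¹ * ‖x‖ < ε := by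
    obtain ⟨N, hN⟩ := exists_nat_gt (‖x‖ / ε)
    refine ⟨N + 1, Nat.succ_pos N, ?_⟩
    rw [inv_mul_lt_iff₀ (by positivity)]
    rw [div_lt_iff₀ hε] at hN
    push_cast
    nlinarith
  set B : ℕ → Set Ω := fun j => {ω | ((j : ℝ) + 1) ≤ N * g ω} with hBdef
  have hBm : ∀ j, MeasurableSet[MeasurableSpace.generateFrom C] (B j) := by
    intro j
    have h0 : MeasurableSet {t : ℝ | ((j : ℝ) + 1) ≤ N * t} :=
      measurableSet_le measurable_const (measurable_const.mul measurable_id)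
    exact hg h0
  refine ⟨fun n => (N : ℝ)⁻¹ * ∑ j ∈ Finset.range N, φ n (indT μ p (B j) x),
    (Cv.sum _ (fun j _ => h (B j) (hBm j))).const_mul _, fun n => ?_⟩
  have hdi := integrable_den hp (φ n) x
  have h1 : ∀ j, φ n (indT μ p (B j) x) = ∫ ω, (if ((j : ℝ) + 1) ≤ N * g ω then (1 : ℝ) else 0) *
      den hp (φ n) x ω ∂μ := by
    intro j
    rw [indT_eq (hle _ (hBm j)), ← setIntegral_den hp (φ n) x (hle _ (hBm j)),
      ← integral_indicator (hle _ (hBm j))]
    congr 1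
    ext ω
    by_cases hω : ((j : ℝ) + 1) ≤ N * g ω
    · simp [Set.indicator, hBdef, hω]
    · simp [Set.indicator, hBdef, hω]
  have hgm : Measurable g := hg.mono hle le_rfl
  have hint : ∀ j : ℕ, Integrable (fun ω => (if ((j : ℝ) + 1) ≤ N * g ω then (1 : ℝ) else 0) *
      den hp (φ n) x ω) μ := by
    intro j
    refine hdi.bdd_mul (c := 1) ?_ ?_
    · refine Measurable.aestronglyMeasurable ?_
      exact Measurable.ite (hle _ (hBm j)) measurable_const measurable_const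
    · refine Eventually.of_forall (fun ω => ?_)
      split_ifs <;> simp
  have hintg : Integrable (fun ω => g ω * den hp (φ n) x ω) μ := by
    refine hdi.bdd_mul (c := 1) hgm.aestronglyMeasurable ?_
    filter_upwards [hg0, hg1] with ω h2 h3
    rw [Real.norm_eq_abs, abs_of_nonneg h2]
    exact h3
  have h2 : (N : ℝ)⁻¹ * ∑ j ∈ Finset.range N, φ n (indT μ p (B j) x) =
      ∫ ω, ((N : ℝ)⁻¹ * ∑ j ∈ Finset.range N, (if ((j : ℝ) + 1) ≤ N * g ω then (1 : ℝ) else 0)) *
        den hp (φ n) x ω ∂μ := by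
    rw [Finset.sum_congr rfl (fun j _ => h1 j), ← integral_finsetSum _ (fun j _ => hint j),
      ← integral_const_mul]
    congr 1
    ext ω
    rw [mul_assoc, Finset.sum_mul]
  have hint2 : Integrable (fun ω => ((N : ℝ)⁻¹ * ∑ j ∈ Finset.range N,
      (if ((j : ℝ) + 1) ≤ N * g ω then (1 : ℝ) else 0)) * den hp (φ n) x ω) μ := by
    have := (integrable_finsetSum (Finset.range N) (fun j _ => hint j)).const_mul (N : ℝ)⁻¹
    refine this.congr (Eventually.of_forall (fun ω => ?_))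
    simp only
    rw [mul_assoc, Finset.sum_mul]
  simp only
  rw [h2, ← integral_sub hintg hint2]
  calc |∫ ω, (g ω * den hp (φ n) x ω - ((N : ℝ)⁻¹ * ∑ j ∈ Finset.range N,
        (if ((j : ℝ) + 1) ≤ N * g ω then (1 : ℝ) else 0)) * den hp (φ n) x ω) ∂μ|
      ≤ ∫ ω, |g ω * den hp (φ n) x ω - ((N : ℝ)⁻¹ * ∑ j ∈ Finset.range N,
        (if ((j : ℝ) + 1) ≤ N * g ω then (1 : ℝ) else 0)) * den hp (φ n) x ω| ∂μ :=
        abs_integral_le_integral_abs
    _ ≤ ∫ ω, (N : ℝ)⁻¹ * |den hp (φ n) x ω| ∂μ := by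
        refine integral_mono_ae (hintg.sub hint2).abs (hdi.abs.const_mul _) ?_
        filter_upwards [hg0, hg1] with ω h3 h4
        rw [← sub_mul, abs_mul]
        gcongr
        exact staircase N hN0 (g ω) h3 h4
    _ = (N : ℝ)⁻¹ * ∫ ω, |den hp (φ n) x ω| ∂μ := integral_const_mul _ _
    _ ≤ (N : ℝ)⁻¹ * (1 * ‖x‖) := by
        gcongr
        refine (integral_abs_den_le hp (φ n) x).trans ?_
        gcongr
        exact hφ n
    _ ≤ ε := by
        rw [one_mul]
        exact hN.le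

/-- the conditional probability of `B` given `m` lies between `0` and `1` -/
lemma condProb_bounds (C : Set (Set Ω)) (B : Set Ω) (hB : MeasurableSet B) :
    (∀ᵐ ω ∂μ, 0 ≤ (μ[B.indicator (fun _ => (1 : ℝ)) | MeasurableSpace.generateFrom C]) ω) ∧
    (∀ᵐ ω ∂μ, (μ[B.indicator (fun _ => (1 : ℝ)) | MeasurableSpace.generateFrom C]) ω ≤ 1) := by
  constructor
  · refine condExp_nonneg (Eventually.of_forall (fun ω => ?_))
    exact Set.indicator_nonneg (fun _ _ => zero_le_one) ω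
  · by_cases hm : MeasurableSpace.generateFrom C ≤ ‹MeasurableSpace Ω›
    · have h1 : μ[B.indicator (fun _ => (1 : ℝ)) | MeasurableSpace.generateFrom C] ≤ᵐ[μ]
          μ[(fun _ => (1 : ℝ)) | MeasurableSpace.generateFrom C] := by
        refine condExp_mono ((integrable_const 1).indicator hB) (integrable_const 1)
          (Eventually.of_forall (fun ω => ?_))
        exact Set.indicator_le_self' (fun _ _ => zero_le_one) ω
      rw [condExp_const hm] at h1
      exact h1
    · rw [condExp_of_not_le hm]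
      exact Eventually.of_forall (fun ω => zero_le_one)

/-- the functional `x ↦ ∫ E[1_B | m] h_x` -/
noncomputable def condEv (hp : p ≠ ⊤) (φ : Lp X p μ →L[ℝ] ℝ) (C : Set (Set Ω)) (B : Set Ω)
    (hB : MeasurableSet B) : X →L[ℝ] ℝ :=
  have hb : ∀ x, Integrable (fun ω => (μ[B.indicator (fun _ => (1 : ℝ)) |
      MeasurableSpace.generateFrom C]) ω * den hp φ x ω) μ := fun x => by
    refine (integrable_den hp φ x).bdd_mul (c := 1) integrable_condExp.aestronglyMeasurable ?_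
    filter_upwards [(condProb_bounds (μ := μ) C B hB).1, (condProb_bounds (μ := μ) C B hB).2]
      with ω h2 h3
    rw [Real.norm_eq_abs, abs_of_nonneg h2]
    exact h3
  LinearMap.mkContinuous
    { toFun := fun x => ∫ ω, (μ[B.indicator (fun _ => (1 : ℝ)) |
        MeasurableSpace.generateFrom C]) ω * den hp φ x ω ∂μ
      map_add' := fun x y => by
        rw [← integral_add (hb x) (hb y)]
        refine integral_congr_ae ?_
        filter_upwards [den_add hp φ x y] with ω h1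
        rw [h1]
        ring
      map_smul' := fun c x => by
        rw [RingHom.id_apply, smul_eq_mul, ← integral_const_mul]
        refine integral_congr_ae ?_
        filter_upwards [den_smul hp φ c x] with ω h1
        rw [h1]
        ring } ‖φ‖ (fun x => by
      simp only [LinearMap.coe_mk, AddHom.coe_mk]
      rw [Real.norm_eq_abs]
      calc |∫ ω, (μ[B.indicator (fun _ => (1 : ℝ)) |
            MeasurableSpace.generateFrom C]) ω * den hp φ x ω ∂μ|
          ≤ ∫ ω, |(μ[B.indicator (fun _ => (1 : ℝ)) |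
            MeasurableSpace.generateFrom C]) ω * den hp φ x ω| ∂μ := abs_integral_le_integral_abs
        _ ≤ ∫ ω, |den hp φ x ω| ∂μ := by
            refine integral_mono_ae (hb x).abs (integrable_den hp φ x).abs ?_
            filter_upwards [(condProb_bounds (μ := μ) C B hB).1,
              (condProb_bounds (μ := μ) C B hB).2] with ω h2 h3
            rw [abs_mul, abs_of_nonneg h2]
            exact mul_le_of_le_one_left (abs_nonneg _) h3
        _ ≤ ‖φ‖ * ‖x‖ := integral_abs_den_le hp φ x)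

lemma condEv_apply (hp : p ≠ ⊤) (φ : Lp X p μ →L[ℝ] ℝ) (C : Set (Set Ω)) (B : Set Ω)
    (hB : MeasurableSet B) (x : X) : condEv hp φ C B hB x = ∫ ω, (μ[B.indicator (fun _ => (1 : ℝ)) |
        MeasurableSpace.generateFrom C]) ω * den hp φ x ω ∂μ := rfl

end Pool.Agent.LpSeq
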