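import Mathlib

set_option autoImplicit false
open MeasureTheory Filter Topology
open scoped ENNReal symmDiff

namespace Pool.Agent.LpSeq

set_option linter.unusedSectionVars false

variable {Ω : Type*} [MeasurableSpace Ω] {μ : Measure Ω} [IsProbabilityMeasure μ]
  {X : Type*} [NormedAddCommGroup X] [NormedSpace ℝ X]
  {p : ℝ≥0∞} [Fact (1 ≤ p)]

variable (μ p) in
/-- the function equal to `x` on `A` and to `0` elsewhere, as an element of `L^p` -/
noncomputable def ind (A : Set Ω) (hA : MeasurableSet A) (x : X) : Lp X p μ :=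
  indicatorConstLp p hA (measure_ne_top μ A) x

omit [NormedSpace ℝ X] in
lemma norm_ind_le (hp : p ≠ ⊤) (A : Set Ω) (hA : MeasurableSet A) (x : X) :
    ‖ind μ p A hA x‖ ≤ ‖x‖ * μ.real A ^ (1 / p.toReal) := by
  have h1 : p ≠ 0 := (zero_lt_one.trans_le (Fact.out : 1 ≤ p)).ne'
  rw [ind, norm_indicatorConstLp h1 hp]

omit [NormedSpace ℝ X] in
lemma norm_ind_le' (hp : p ≠ ⊤) (A : Set Ω) (hA : MeasurableSet A) (x : X) :
    ‖ind μ p A hA x‖ ≤ ‖x‖ := by
  refine (norm_ind_le hp A hA x).trans ?_
  have : μ.real A ^ (1 / p.toReal) ≤ 1 := by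
    apply Real.rpow_le_one measureReal_nonneg measureReal_le_one (by positivity)
  nlinarith [norm_nonneg x]

omit [NormedSpace ℝ X] in
lemma ind_add (A : Set Ω) (hA : MeasurableSet A) (x y : X) :
    ind μ p A hA (x + y) = ind μ p A hA x + ind μ p A hA y := by
  simp only [ind]
  rw [indicatorConstLp_add]

lemma ind_smul (A : Set Ω) (hA : MeasurableSet A) (c : ℝ) (x : X) :
    ind μ p A hA (c • x) = c • ind μ p A hA x := by
  simp only [ind]
  apply Lp.ext
  filter_upwards [indicatorConstLp_coeFn (p := p) (hs := hA) (hμs := measure_ne_top μ A) (c := c • x),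
    Lp.coeFn_smul c (indicatorConstLp p hA (measure_ne_top μ A) x),
    indicatorConstLp_coeFn (p := p) (hs := hA) (hμs := measure_ne_top μ A) (c := x)] with ω h1 h2 h3
  rw [h1, h2, Pi.smul_apply, h3]
  by_cases hω : ω ∈ A
  · simp [hω]
  · simp [hω]

omit [NormedSpace ℝ X] in
lemma ind_union (A B : Set Ω) (hA : MeasurableSet A) (hB : MeasurableSet B) (h : Disjoint A B)
    (x : X) : ind μ p (A ∪ B) (hA.union hB) x = ind μ p A hA x + ind μ p B hB x := by
  simp only [ind]
  exact indicatorConstLp_disjoint_union hA hB _ _ h x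

/-- the functional `x ↦ φ(1_A x)` -/
noncomputable def ev (hp : p ≠ ⊤) (φ : Lp X p μ →L[ℝ] ℝ) (A : Set Ω) (hA : MeasurableSet A) :
    X →L[ℝ] ℝ :=
  LinearMap.mkContinuous
    { toFun := fun x => φ (ind μ p A hA x)
      map_add' := fun x y => by rw [ind_add, map_add]
      map_smul' := fun c x => by rw [ind_smul, map_smul]; simp }
    (‖φ‖ * μ.real A ^ (1 / p.toReal)) (fun x => by
      refine (φ.le_opNorm _).trans ?_
      have := norm_ind_le (μ := μ) hp A hA x
      calc ‖φ‖ * ‖ind μ p A hA x‖ ≤ ‖φ‖ * (‖x‖ * μ.real A ^ (1 / p.toReal)) := by gcongr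
        _ = _ := by ring)

@[simp] lemma ev_apply (hp : p ≠ ⊤) (φ : Lp X p μ →L[ℝ] ℝ) (A : Set Ω) (hA : MeasurableSet A)
    (x : X) : ev hp φ A hA x = φ (ind μ p A hA x) := rfl

lemma norm_ev_le (hp : p ≠ ⊤) (φ : Lp X p μ →L[ℝ] ℝ) (A : Set Ω) (hA : MeasurableSet A) :
    ‖ev hp φ A hA‖ ≤ ‖φ‖ * μ.real A ^ (1 / p.toReal) :=
  LinearMap.mkContinuous_norm_le _ (by positivity) _

lemma norm_ev_le' (hp : p ≠ ⊤) (φ : Lp X p μ →L[ℝ] ℝ) (A : Set Ω) (hA : MeasurableSet A) :
    ‖ev hp φ A hA‖ ≤ ‖φ‖ := by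
  refine (norm_ev_le hp φ A hA).trans ?_
  have : μ.real A ^ (1 / p.toReal) ≤ 1 := by
    apply Real.rpow_le_one measureReal_nonneg measureReal_le_one (by positivity)
  nlinarith [norm_nonneg φ]

lemma rpow_tendsto (hp : p ≠ ⊤) {ι : Type*} {l : Filter ι} {f : ι → ℝ}
    (hf : Tendsto f l (𝓝 0)) :
    Tendsto (fun i => f i ^ (1 / p.toReal)) l (𝓝 0) := by
  have hp1 : 0 < p.toReal := ENNReal.toReal_pos (zero_lt_one.trans_le (Fact.out : 1 ≤ p)).ne' hp
  have h2 : (0 : ℝ) < 1 / p.toReal := by positivity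
  have h3 := (Real.continuousAt_rpow_const 0 (1 / p.toReal) (Or.inr h2.le)).tendsto
  have h4 := h3.comp hf
  rwa [Real.zero_rpow h2.ne'] at h4

/-- the vector measure `A ↦ (x ↦ φ(1_A x))` -/
noncomputable def vm (hp : p ≠ ⊤) (φ : Lp X p μ →L[ℝ] ℝ) : VectorMeasure Ω (X →L[ℝ] ℝ) where
  measureOf' := fun A => by
    classical exact if hA : MeasurableSet A then ev hp φ A hA else 0
  empty' := by
    classical
    simp only [MeasurableSet.empty, dif_pos]
    ext x
    have : ind μ p (∅ : Set Ω) MeasurableSet.empty x = 0 := by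
      simp [ind]
    simp [this]
  not_measurable' := fun A hA => by simp [hA]
  m_iUnion' := by
    classical
    intro f hf hd
    have hU : MeasurableSet (⋃ i, f i) := MeasurableSet.iUnion hf
    simp only [hf, hU, dif_pos]
    -- finite partial sums
    have key : ∀ F : Finset ℕ, ∑ i ∈ F, ev hp φ (f i) (hf i) =
        ev hp φ (⋃ i ∈ F, f i) (Finset.measurableSet_biUnion F (fun i _ => hf i)) := by
      intro F
      induction F using Finset.induction_on with
      | empty =>
        ext x
        have : ind μ p (⋃ i ∈ (∅ : Finset ℕ), f i)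
            (Finset.measurableSet_biUnion ∅ (fun i _ => hf i)) x = 0 := by
          have h0 : (⋃ i ∈ (∅ : Finset ℕ), f i) = ∅ := by simp
          simp only [h0, ind]
          simp
        rw [ev_apply, this, map_zero, Finset.sum_empty]
        rfl
      | insert a F ha ih =>
        rw [Finset.sum_insert ha, ih]
        ext x
        have hdis : Disjoint (f a) (⋃ i ∈ F, f i) := by
          rw [Set.disjoint_iUnion₂_right]
          intro i hi
          exact hd (fun h => ha (h ▸ hi))
        have e1 : ind μ p (f a ∪ ⋃ i ∈ F, f i)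
            ((hf a).union (Finset.measurableSet_biUnion F (fun i _ => hf i))) x =
            ind μ p (⋃ i ∈ insert a F, f i)
              (Finset.measurableSet_biUnion _ (fun i _ => hf i)) x := by
          congr 1
          simp
        simp only [add_apply, ev_apply]
        rw [← e1, ind_union _ _ _ _ hdis, map_add]
    unfold HasSum
    simp only [SummationFilter.unconditional_filter]
    rw [tendsto_iff_norm_sub_tendsto_zero]
    have hb : ∀ F : Finset ℕ, ‖∑ i ∈ F, ev hp φ (f i) (hf i) - ev hp φ (⋃ i, f i) hU‖ ≤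
        ‖φ‖ * μ.real ((⋃ i, f i) \ ⋃ i ∈ F, f i) ^ (1 / p.toReal) := by
      intro F
      have hFm : MeasurableSet (⋃ i ∈ F, f i) := Finset.measurableSet_biUnion F (fun i _ => hf i)
      rw [key F, norm_sub_rev]
      have e2 : ev hp φ (⋃ i, f i) hU - ev hp φ (⋃ i ∈ F, f i) hFm =
          ev hp φ ((⋃ i, f i) \ ⋃ i ∈ F, f i) (hU.diff hFm) := by
        ext x
        have hsub : (⋃ i ∈ F, f i) ⊆ ⋃ i, f i := Set.iUnion₂_subset_iUnion _ _
        have e3 : ind μ p (⋃ i, f i) hU x = ind μ p ((⋃ i ∈ F, f i) ∪ ((⋃ i, f i) \ ⋃ i ∈ F, f i))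
            (hFm.union (hU.diff hFm)) x := by
          congr 1
          rw [Set.union_sdiff_cancel hsub]
        simp only [sub_apply, ev_apply]
        rw [e3, ind_union _ _ hFm (hU.diff hFm) Set.disjoint_sdiff_right, map_add]
        ring
      rw [e2]
      exact norm_ev_le hp φ _ _
    refine squeeze_zero (fun _ => norm_nonneg _) hb ?_
    have h0 : Tendsto (fun F : Finset ℕ => μ.real ((⋃ i, f i) \ ⋃ i ∈ F, f i)) atTop (𝓝 0) := by
      have hs : HasSum (fun i => μ.real (f i)) (μ.real (⋃ i, f i)) := by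
        have h1 := μ.toSignedMeasure.m_iUnion hf hd
        simpa [Measure.toSignedMeasure_apply_measurable, hf, hU] using h1
      have h2 : ∀ F : Finset ℕ, μ.real ((⋃ i, f i) \ ⋃ i ∈ F, f i) =
          μ.real (⋃ i, f i) - ∑ i ∈ F, μ.real (f i) := by
        intro F
        have hFm : MeasurableSet (⋃ i ∈ F, f i) :=
          Finset.measurableSet_biUnion F (fun i _ => hf i)
        have hsub : (⋃ i ∈ F, f i) ⊆ ⋃ i, f i := Set.iUnion₂_subset_iUnion _ _
        rw [measureReal_diff hsub hFm, measureReal_biUnion_finset]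
        · intro i _ j _ hij
          exact hd hij
        · intro i _
          exact hf i
      have h3 : Tendsto (fun F : Finset ℕ => μ.real (⋃ i, f i) - ∑ i ∈ F, μ.real (f i)) atTop
          (𝓝 (μ.real (⋃ i, f i) - μ.real (⋃ i, f i))) := by
        refine Tendsto.sub tendsto_const_nhds ?_
        unfold HasSum at hs
        simpa only [SummationFilter.unconditional_filter] using hs
      rw [sub_self] at h3
      exact h3.congr (fun F => (h2 F).symm)
    simpa using (rpow_tendsto hp h0).const_mul ‖φ‖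

end Pool.Agent.LpSeq
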