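import Pool.Agent.LpSeq.Core

set_option autoImplicit false
open MeasureTheory Filter Topology
open scoped ENNReal symmDiff

namespace Pool.Agent.LpSeq

set_option linter.unusedSectionVars false

variable {Ω : Type*} [MeasurableSpace Ω] {μ : Measure Ω} [IsProbabilityMeasure μ]
  {X : Type*} [NormedAddCommGroup X] [NormedSpace ℝ X]
  {p : ℝ≥0∞} [Fact (1 ≤ p)]

/-- pulling out -/
lemma integral_mul_condProb (C : Set (Set Ω)) (hCm : ∀ A ∈ C, MeasurableSet A) (B : Set Ω)
    (hB : MeasurableSet B) (g : Ω → ℝ) (hg : Measurable[MeasurableSpace.generateFrom C] g)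
    (hgi : Integrable g μ) :
    ∫ ω in B, g ω ∂μ = ∫ ω, (μ[B.indicator (fun _ => (1 : ℝ)) |
        MeasurableSpace.generateFrom C]) ω * g ω ∂μ := by
  have hle : MeasurableSpace.generateFrom C ≤ ‹MeasurableSpace Ω› :=
    MeasurableSpace.generateFrom_le hCm
  have h1 : (B.indicator (fun _ => (1 : ℝ))) * g = B.indicator g := by
    ext ω
    by_cases hω : ω ∈ B
    · simp [hω]
    · simp [hω]
  have h2 := condExp_mul_of_stronglyMeasurable_right (μ := μ)
    (m := MeasurableSpace.generateFrom C) (f := B.indicator (fun _ => (1 : ℝ))) (g := g)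
    (Measurable.stronglyMeasurable hg) (by rw [h1]; exact hgi.indicator hB)
    ((integrable_const 1).indicator hB)
  have h3 := integral_congr_ae h2
  rw [integral_condExp hle, h1, integral_indicator hB] at h3
  rw [h3]
  rfl

lemma apply_indT_eq_condEv (hp : p ≠ ⊤) (φ : Lp X p μ →L[ℝ] ℝ) (C : Set (Set Ω))
    (hCm : ∀ A ∈ C, MeasurableSet A) (B : Set Ω) (hB : MeasurableSet B) (x : X)
    (h : ∀ ε > 0, ∃ g : Ω → ℝ, Measurable[MeasurableSpace.generateFrom C] g ∧ Integrable g μ ∧
      ∫ ω, |den hp φ x ω - g ω| ∂μ ≤ ε) :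
    φ (indT μ p B x) = condEv hp φ C B hB x := by
  rw [← sub_eq_zero]
  have h0 : ∀ ε > 0, |φ (indT μ p B x) - condEv hp φ C B hB x| ≤ 2 * ε := by
    intro ε hε
    obtain ⟨g, hg, hgi, hgx⟩ := h ε hε
    have hdi := integrable_den hp φ x
    rw [condEv_apply, indT_eq hB, ← setIntegral_den hp φ x hB]
    have h1 := integral_mul_condProb (μ := μ) C hCm B hB g hg hgi
    set b := μ[B.indicator (fun _ => (1 : ℝ)) | MeasurableSpace.generateFrom C] with hb
    have hbb : ∀ u : Ω → ℝ, Integrable u μ → Integrable (fun ω => b ω * u ω) μ := by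
      intro u hu
      refine hu.bdd_mul (c := 1) integrable_condExp.aestronglyMeasurable ?_
      filter_upwards [(condProb_bounds (μ := μ) C B hB).1, (condProb_bounds (μ := μ) C B hB).2]
        with ω h2 h3
      rw [Real.norm_eq_abs, abs_of_nonneg h2]
      exact h3
    have h2 : |(∫ ω in B, den hp φ x ω ∂μ) - ∫ ω in B, g ω ∂μ| ≤ ε := by
      rw [← integral_sub hdi.integrableOn hgi.integrableOn]
      refine abs_integral_le_integral_abs.trans ?_
      exact (setIntegral_le_integral (hdi.sub hgi).abs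
        (Eventually.of_forall (fun ω => abs_nonneg _))).trans hgx
    have h3 : |(∫ ω, b ω * den hp φ x ω ∂μ) - ∫ ω, b ω * g ω ∂μ| ≤ ε := by
      rw [← integral_sub (hbb _ hdi) (hbb _ hgi)]
      refine abs_integral_le_integral_abs.trans (le_trans ?_ hgx)
      refine integral_mono_ae ((hbb _ hdi).sub (hbb _ hgi)).abs (hdi.sub hgi).abs ?_
      filter_upwards [(condProb_bounds (μ := μ) C B hB).1,
        (condProb_bounds (μ := μ) C B hB).2] with ω h2 h3
      rw [← mul_sub, abs_mul, abs_of_nonneg h2]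
      exact mul_le_of_le_one_left (abs_nonneg _) h3
    rw [h1] at h2
    rw [abs_le] at h2 h3 ⊢
    constructor <;> linarith [h2.1, h2.2, h3.1, h3.2]
  by_contra hne
  have h1 : 0 < |φ (indT μ p B x) - condEv hp φ C B hB x| := abs_pos.2 hne
  have h2 := h0 (|φ (indT μ p B x) - condEv hp φ C B hB x| / 4) (by positivity)
  linarith

/-- convergence on all indicator functions gives convergence everywhere -/
lemma cv_of_indicators (hp : p ≠ ⊤) (φ : ℕ → Lp X p μ →L[ℝ] ℝ) (hφ : ∀ n, ‖φ n‖ ≤ 1)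
    (F : Filter ℕ) [NeBot F]
    (h : ∀ B, MeasurableSet B → ∀ x, Cv F (fun n => φ n (indT μ p B x))) (f : Lp X p μ) :
    Cv F (fun n => φ n f) := by
  refine Lp.induction hp (motive := fun f => Cv F (fun n => φ n f)) ?_ ?_ ?_ f
  · intro c s hs hμs
    have := h s hs c
    rw [indT_eq hs] at this
    exact this
  · intro f g hf hg _ h1 h2
    have h3 := h1.add h2
    simp only [← map_add] at h3
    exact h3
  · exact cv_closed φ hφ F

theorem core (hp : p ≠ ⊤) (φ : ℕ → Lp X p μ →L[ℝ] ℝ) (hφ : ∀ n, ‖φ n‖ ≤ 1)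
    (F : Filter ℕ) [NeBot F] (C : Set (Set Ω)) (hC : IsPiSystem C)
    (hCm : ∀ A ∈ C, MeasurableSet A) (hu : Set.univ ∈ C)
    (h : ∀ A ∈ C, ∀ x, Cv F (fun n => φ n (indT μ p A x)))
    (T : Set X) (hT : Dense (Submodule.span ℝ T : Set X))
    (hid : ∀ x ∈ T, ∀ n, ∀ ε > 0, ∃ g : Ω → ℝ, Measurable[MeasurableSpace.generateFrom C] g ∧
      Integrable g μ ∧ ∫ ω, |den hp (φ n) x ω - g ω| ∂μ ≤ ε)
    (f : Lp X p μ) : Cv F (fun n => φ n f) := by
  refine cv_of_indicators hp φ hφ F (fun B hB x => ?_) f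
  have h1 : ∀ n, ev hp (φ n) B hB = condEv hp (φ n) C B hB := by
    intro n
    refine ContinuousLinearMap.ext_on hT (fun y hy => ?_)
    rw [ev_apply, ← indT_eq hB]
    exact apply_indT_eq_condEv hp (φ n) C hCm B hB y (hid y hy n)
  have h2 := cv_of_generateFrom hp φ hφ F C hC hCm hu x (fun A hA => h A hA x)
  have hle : MeasurableSpace.generateFrom C ≤ ‹MeasurableSpace Ω› :=
    MeasurableSpace.generateFrom_le hCm
  have h3 := cv_integral hp φ hφ F C hCm x h2
    (μ[B.indicator (fun _ => (1 : ℝ)) | MeasurableSpace.generateFrom C])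
    stronglyMeasurable_condExp.measurable (condProb_bounds C B hB).1 (condProb_bounds C B hB).2
  refine (Eq.mp ?_ h3)
  congr 1
  ext n
  rw [← condEv_apply hp (φ n) C B hB x, ← h1 n, ev_apply, indT_eq hB]

end Pool.Agent.LpSeq
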