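import Pool.Agent.LpSeq.Basic

set_option autoImplicit false
open MeasureTheory Filter Topology
open scoped ENNReal symmDiff

namespace Pool.Agent.LpSeq

set_option linter.unusedSectionVars false

variable {Ω : Type*} [MeasurableSpace Ω] {μ : Measure Ω} [IsProbabilityMeasure μ]
  {X : Type*} [NormedAddCommGroup X] [NormedSpace ℝ X]
  {p : ℝ≥0∞} [Fact (1 ≤ p)]

lemma vm_apply (hp : p ≠ ⊤) (φ : Lp X p μ →L[ℝ] ℝ) {A : Set Ω} (hA : MeasurableSet A) :
    vm hp φ A = ev hp φ A hA := by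
  classical
  change (if hA : MeasurableSet A then ev hp φ A hA else 0) = _
  simp [hA]

lemma vm_apply_apply (hp : p ≠ ⊤) (φ : Lp X p μ →L[ℝ] ℝ) {A : Set Ω} (hA : MeasurableSet A)
    (x : X) : vm hp φ A x = φ (ind μ p A hA x) := by
  rw [vm_apply hp φ hA, ev_apply]

variable (μ p) in
/-- total version of `ind` -/
noncomputable def indT (A : Set Ω) (x : X) : Lp X p μ := by
  classical exact if hA : MeasurableSet A then ind μ p A hA x else 0

lemma indT_eq {A : Set Ω} (hA : MeasurableSet A) (x : X) : indT μ p A x = ind μ p A hA x := by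
  classical
  simp [indT, hA]

lemma coeFn_indT {A : Set Ω} (hA : MeasurableSet A) (x : X) :
    (indT μ p A x : Ω → X) =ᵐ[μ] A.indicator (fun _ => x) := by
  rw [indT_eq hA]
  exact indicatorConstLp_coeFn

lemma norm_sum_indT_le (P : Finset (Set Ω)) (hP : ∀ t ∈ P, MeasurableSet t)
    (hd : (P : Set (Set Ω)).PairwiseDisjoint id) (x : Set Ω → X) (hx : ∀ t, ‖x t‖ ≤ 1) :
    ‖∑ t ∈ P, indT μ p t (x t)‖ ≤ 1 := by
  have h1 : ∀ᵐ ω ∂μ, ‖(∑ t ∈ P, indT μ p t (x t) : Lp X p μ) ω‖ ≤ 1 := by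
    have h2 : ∀ᵐ ω ∂μ, ∀ t ∈ P, (indT μ p t (x t) : Ω → X) ω = t.indicator (fun _ => x t) ω := by
      rw [eventually_all_finset]
      intro t ht
      exact coeFn_indT (hP t ht) (x t)
    have h3 := Lp.coeFn_finsetSum (μ := μ) (p := p) P (fun t => indT μ p t (x t))
    filter_upwards [h2, h3] with ω h4 h5
    rw [h5, Finset.sum_apply, Finset.sum_congr rfl (fun t ht => h4 t ht)]
    by_cases h6 : ∃ t ∈ P, ω ∈ t
    · obtain ⟨t, ht, hωt⟩ := h6
      rw [Finset.sum_eq_single_of_mem t ht]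
      · simp [hωt, hx t]
      · intro s hs hst
        have : ω ∉ s := fun hωs => by
          have := hd hs ht hst
          exact Set.disjoint_left.1 this hωs hωt
        simp [this]
    · push Not at h6
      rw [Finset.sum_eq_zero]
      · simp
      · intro t ht
        simp [h6 t ht]
  have h2 := Lp.norm_le_of_ae_bound (p := p) (μ := μ) zero_le_one h1
  refine h2.trans ?_
  simp [measureUnivNNReal]

lemma variation_univ_le (hp : p ≠ ⊤) (φ : Lp X p μ →L[ℝ] ℝ) :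
    VectorMeasure.variation (V := X →L[ℝ] ℝ) (vm hp φ) Set.univ ≤ ENNReal.ofReal ‖φ‖ := by
  by_contra hcon
  push Not at hcon
  obtain ⟨P, -, hd, hm, hlt⟩ := VectorMeasure.exists_lt_sum_of_lt_variation (V := X →L[ℝ] ℝ) _
    MeasurableSet.univ hcon
  have e1 : ∑ t ∈ P, ‖vm hp φ t‖ₑ = ENNReal.ofReal (∑ t ∈ P, ‖vm hp φ t‖) := by
    rw [ENNReal.ofReal_sum_of_nonneg (fun _ _ => norm_nonneg _)]
    refine Finset.sum_congr rfl (fun t _ => ?_)
    rw [ofReal_norm]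
  rw [e1] at hlt
  have hlt2 : ‖φ‖ < ∑ t ∈ P, ‖vm hp φ t‖ := by
    have := (ENNReal.ofReal_lt_ofReal_iff_of_nonneg (norm_nonneg φ)).1 hlt
    exact this
  -- choose the vectors
  obtain ⟨δ, hδ, hδ2⟩ : ∃ δ : ℝ, 0 < δ ∧ ‖φ‖ < ∑ t ∈ P, (‖vm hp φ t‖ - δ) := by
    refine ⟨(∑ t ∈ P, ‖vm hp φ t‖ - ‖φ‖) / (2 * (P.card + 1)), ?_, ?_⟩
    · have : 0 < ∑ t ∈ P, ‖vm hp φ t‖ - ‖φ‖ := by linarith
      positivity
    · rw [Finset.sum_sub_distrib, Finset.sum_const, nsmul_eq_mul]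
      have h0 : 0 < ∑ t ∈ P, ‖vm hp φ t‖ - ‖φ‖ := by linarith
      set D := ∑ t ∈ P, ‖vm hp φ t‖ - ‖φ‖ with hD
      have h1 : (P.card : ℝ) * (D / (2 * (P.card + 1))) ≤ D / 2 := by
        rw [mul_div_assoc', div_le_div_iff₀ (by positivity) (by norm_num)]
        nlinarith [Nat.cast_nonneg (α := ℝ) P.card]
      linarith
  have hx : ∀ t : Set Ω, ∃ x : X, ‖x‖ ≤ 1 ∧ ‖vm hp φ t‖ - δ ≤ vm hp φ t x := by
    intro t
    obtain ⟨x, hx1, hx2⟩ := (vm hp φ t).exists_lt_apply_of_lt_opNorm (r := ‖vm hp φ t‖ - δ)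
      (by linarith)
    rcases le_total 0 (vm hp φ t x) with h | h
    · refine ⟨x, hx1.le, ?_⟩
      rw [Real.norm_of_nonneg h] at hx2
      exact hx2.le
    · refine ⟨-x, by simpa using hx1.le, ?_⟩
      rw [Real.norm_of_nonpos h] at hx2
      simpa using hx2.le
  choose x hx1 hx2 using hx
  have e2 : ∑ t ∈ P, vm hp φ t (x t) = φ (∑ t ∈ P, indT μ p t (x t)) := by
    rw [map_sum]
    refine Finset.sum_congr rfl (fun t ht => ?_)
    rw [vm_apply_apply hp φ (hm t ht), indT_eq (hm t ht)]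
  have e3 : φ (∑ t ∈ P, indT μ p t (x t)) ≤ ‖φ‖ := by
    have := φ.le_opNorm (∑ t ∈ P, indT μ p t (x t))
    have h2 := norm_sum_indT_le (μ := μ) (p := p) P hm hd x hx1
    calc φ (∑ t ∈ P, indT μ p t (x t)) ≤ ‖φ (∑ t ∈ P, indT μ p t (x t))‖ := Real.le_norm_self _
      _ ≤ ‖φ‖ * ‖∑ t ∈ P, indT μ p t (x t)‖ := this
      _ ≤ ‖φ‖ * 1 := by gcongr
      _ = ‖φ‖ := mul_one _
  have e4 : ∑ t ∈ P, (‖vm hp φ t‖ - δ) ≤ ∑ t ∈ P, vm hp φ t (x t) :=
    Finset.sum_le_sum (fun t _ => hx2 t)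
  linarith

/-- the variation, a finite measure -/
noncomputable def nu (hp : p ≠ ⊤) (φ : Lp X p μ →L[ℝ] ℝ) : Measure Ω :=
  VectorMeasure.variation (V := X →L[ℝ] ℝ) (vm hp φ)

instance (hp : p ≠ ⊤) (φ : Lp X p μ →L[ℝ] ℝ) : IsFiniteMeasure (nu hp φ) :=
  ⟨(variation_univ_le hp φ).trans_lt ENNReal.ofReal_lt_top⟩

lemma abs_le_nu (hp : p ≠ ⊤) (φ : Lp X p μ →L[ℝ] ℝ) {A : Set Ω} (hA : MeasurableSet A) (x : X) :
    |φ (ind μ p A hA x)| ≤ (nu hp φ).real A * ‖x‖ := by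
  rw [← vm_apply_apply hp φ hA, ← Real.norm_eq_abs]
  refine ((vm hp φ A).le_opNorm x).trans ?_
  gcongr
  exact VectorMeasure.norm_measure_le_variation (V := X →L[ℝ] ℝ)
    (hE := measure_ne_top (nu hp φ) A)

/-- the signed measure `A ↦ φ(1_A x)` -/
noncomputable def sm (hp : p ≠ ⊤) (φ : Lp X p μ →L[ℝ] ℝ) (x : X) : SignedMeasure Ω :=
  (vm hp φ).mapRange (ContinuousLinearMap.apply ℝ ℝ x).toLinearMap.toAddMonoidHom
    (ContinuousLinearMap.apply ℝ ℝ x).continuous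

lemma sm_apply (hp : p ≠ ⊤) (φ : Lp X p μ →L[ℝ] ℝ) (x : X) {A : Set Ω} (hA : MeasurableSet A) :
    sm hp φ x A = φ (ind μ p A hA x) := by
  rw [sm, VectorMeasure.mapRange_apply, ← vm_apply_apply hp φ hA]
  rfl

lemma sm_ac (hp : p ≠ ⊤) (φ : Lp X p μ →L[ℝ] ℝ) (x : X) :
    sm hp φ x ≪ᵥ μ.toENNRealVectorMeasure := by
  refine VectorMeasure.AbsolutelyContinuous.mk (fun A hA h0 => ?_)
  rw [Measure.toENNRealVectorMeasure_apply_measurable hA] at h0
  rw [sm_apply hp φ x hA]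
  have : ind μ p A hA x = 0 := by
    have h1 := norm_ind_le (μ := μ) hp A hA x
    have h2 : μ.real A = 0 := by simp [measureReal_def, h0]
    have hp1 : 0 < p.toReal :=
      ENNReal.toReal_pos (zero_lt_one.trans_le (Fact.out : 1 ≤ p)).ne' hp
    rw [h2, Real.zero_rpow (by positivity), mul_zero] at h1
    exact norm_le_zero_iff.1 h1
  rw [this, map_zero]

/-- the density of `A ↦ φ(1_A x)` -/
noncomputable def den (hp : p ≠ ⊤) (φ : Lp X p μ →L[ℝ] ℝ) (x : X) : Ω → ℝ :=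
  (sm hp φ x).rnDeriv μ

lemma integrable_den (hp : p ≠ ⊤) (φ : Lp X p μ →L[ℝ] ℝ) (x : X) : Integrable (den hp φ x) μ :=
  SignedMeasure.integrable_rnDeriv _ _

lemma measurable_den (hp : p ≠ ⊤) (φ : Lp X p μ →L[ℝ] ℝ) (x : X) : Measurable (den hp φ x) :=
  SignedMeasure.measurable_rnDeriv _ _

lemma setIntegral_den (hp : p ≠ ⊤) (φ : Lp X p μ →L[ℝ] ℝ) (x : X) {A : Set Ω}
    (hA : MeasurableSet A) : ∫ ω in A, den hp φ x ω ∂μ = φ (ind μ p A hA x) := by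
  have h := SignedMeasure.withDensityᵥ_rnDeriv_eq (sm hp φ x) μ (sm_ac hp φ x)
  have h2 : (μ.withDensityᵥ ((sm hp φ x).rnDeriv μ)) A = sm hp φ x A := by rw [h]
  rw [← sm_apply hp φ x hA, ← h2, withDensityᵥ_apply (SignedMeasure.integrable_rnDeriv _ _) hA]
  rfl

lemma den_sub (hp : p ≠ ⊤) (φ : Lp X p μ →L[ℝ] ℝ) (x y : X) :
    den hp φ (x - y) =ᵐ[μ] fun ω => den hp φ x ω - den hp φ y ω := by
  refine Integrable.ae_eq_of_forall_setIntegral_eq _ _ (integrable_den hp φ _)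
    ((integrable_den hp φ x).sub (integrable_den hp φ y)) (fun A hA _ => ?_)
  rw [setIntegral_den hp φ _ hA]
  rw [integral_sub (integrable_den hp φ x).integrableOn (integrable_den hp φ y).integrableOn,
    setIntegral_den hp φ _ hA, setIntegral_den hp φ _ hA]
  have : ind μ p A hA (x - y) = ind μ p A hA x - ind μ p A hA y := by
    rw [sub_eq_add_neg, ind_add, ← neg_one_smul ℝ y, ind_smul]
    simp [sub_eq_add_neg]
  rw [this, map_sub]

end Pool.Agent.LpSeq
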