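import Pool.Agent.LpSeq.Gen

set_option autoImplicit false
open MeasureTheory Filter Topology Cardinal CompactlySupported
open scoped ENNReal symmDiff

namespace Pool.Agent.LpSeq

set_option linter.unusedSectionVars false

section ball

variable (X : Type*) [NormedAddCommGroup X] [NormedSpace ℝ X]

/-- The closed unit ball of the dual space with the weak* topology. -/
abbrev DualBall : Type _ :=
  ↥(WeakDual.toStrongDual ⁻¹' Metric.closedBall (0 : StrongDual ℝ X) 1 : Set (WeakDual ℝ X))

instance : CompactSpace (DualBall X) :=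
  isCompact_iff_compactSpace.1 (WeakDual.isCompact_closedBall (𝕜 := ℝ) (E := X) 0 1)

variable {X}

/-- a functional of norm at most one as a point of the dual ball -/
noncomputable def toBall (ψ : X →L[ℝ] ℝ) (h : ‖ψ‖ ≤ 1) : DualBall X :=
  ⟨StrongDual.toWeakDual ψ, by simpa using h⟩

@[simp] lemma toBall_apply (ψ : X →L[ℝ] ℝ) (h : ‖ψ‖ ≤ 1) (x : X) : (toBall ψ h).1 x = ψ x := rfl

lemma continuous_eval (x : X) : Continuous (fun z : DualBall X => z.1 x) :=
  (WeakDual.eval_continuous x).comp continuous_subtype_val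

lemma abs_eval_le (x : X) (z : DualBall X) : |z.1 x| ≤ ‖x‖ := by
  have h1 : ‖(WeakDual.toStrongDual z.1 : StrongDual ℝ X)‖ ≤ 1 :=
    mem_closedBall_zero_iff.1 z.2
  have h2 := (WeakDual.toStrongDual z.1 : StrongDual ℝ X).le_opNorm x
  calc |z.1 x| = ‖(WeakDual.toStrongDual z.1 : StrongDual ℝ X) x‖ := rfl
    _ ≤ ‖(WeakDual.toStrongDual z.1 : StrongDual ℝ X)‖ * ‖x‖ := h2
    _ ≤ 1 * ‖x‖ := by gcongr
    _ = ‖x‖ := one_mul _

/-- the function `z ↦ |z x|` on the dual ball -/
noncomputable def absEval (x : X) : C_c(DualBall X, ℝ) :=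
  CompactlySupportedContinuousMap.continuousMapEquiv
    ⟨fun z => |z.1 x|, (continuous_eval x).abs⟩

@[simp] lemma absEval_apply (x : X) (z : DualBall X) : absEval x z = |z.1 x| := rfl

end ball

variable {Ω : Type*} [MeasurableSpace Ω] {μ : Measure Ω} [IsProbabilityMeasure μ]
  {X : Type*} [NormedAddCommGroup X] [NormedSpace ℝ X]
  {p : ℝ≥0∞} [Fact (1 ≤ p)]

lemma norm_normalised_le (hp : p ≠ ⊤) (φ : Lp X p μ →L[ℝ] ℝ) (A : Set Ω) (hA : MeasurableSet A) :
    ‖((nu hp φ).real A)⁻¹ • ev hp φ A hA‖ ≤ 1 := by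
  refine ContinuousLinearMap.opNorm_le_bound _ zero_le_one (fun x => ?_)
  have h4 := abs_le_nu hp φ hA x
  simp only [smul_apply, ev_apply, smul_eq_mul, norm_mul, norm_inv, Real.norm_eq_abs]
  rw [abs_of_nonneg (measureReal_nonneg (μ := nu hp φ))]
  by_cases h0 : (nu hp φ).real A = 0
  · rw [h0]
    simp
  · have h5 : 0 < (nu hp φ).real A := lt_of_le_of_ne measureReal_nonneg (Ne.symm h0)
    rw [inv_mul_le_iff₀ h5, one_mul]
    exact h4

/-- the point of the dual ball given by the normalised functional `x ↦ φ(1_A x)/ν(A)` -/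
noncomputable def avg (hp : p ≠ ⊤) (φ : Lp X p μ →L[ℝ] ℝ) (A : Set Ω) (hA : MeasurableSet A) :
    DualBall X := toBall _ (norm_normalised_le hp φ A hA)

lemma nu_mul_abs_avg (hp : p ≠ ⊤) (φ : Lp X p μ →L[ℝ] ℝ) (A : Set Ω) (hA : MeasurableSet A)
    (x : X) : (nu hp φ).real A * |(avg hp φ A hA).1 x| = |φ (ind μ p A hA x)| := by
  rw [avg, toBall_apply]
  simp only [smul_apply, ev_apply, smul_eq_mul]
  have h4 := abs_le_nu hp φ hA x
  by_cases h0 : (nu hp φ).real A = 0
  · rw [h0, zero_mul] at h4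
    rw [h0, zero_mul]
    exact (le_antisymm h4 (abs_nonneg _)).symm
  · have h5 : 0 < (nu hp φ).real A := lt_of_le_of_ne measureReal_nonneg (Ne.symm h0)
    rw [abs_mul, abs_of_pos (inv_pos.2 h5), ← mul_assoc, mul_inv_cancel₀ h0, one_mul]

/-- the cells of the finite partition given by the signs of the densities -/
def sgnCell (hp : p ≠ ⊤) (φ : Lp X p μ →L[ℝ] ℝ) (E G : Finset X) : Set Ω :=
  ⋂ x ∈ E, {ω | 0 ≤ den hp φ x ω ↔ x ∈ G}

lemma measurable_sgnCell (hp : p ≠ ⊤) (φ : Lp X p μ →L[ℝ] ℝ) (E G : Finset X) :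
    MeasurableSet (sgnCell hp φ E G) := by
  refine Finset.measurableSet_biInter E (fun x _ => ?_)
  have hm : MeasurableSet {ω | 0 ≤ den hp φ x ω} :=
    measurableSet_le measurable_const (measurable_den hp φ x)
  by_cases hx : x ∈ G
  · simpa [hx] using hm
  · have h2 := hm.compl
    simp only [hx, iff_false]
    exact h2

lemma mem_sgnCell (hp : p ≠ ⊤) (φ : Lp X p μ →L[ℝ] ℝ) (E G : Finset X) (hG : G ⊆ E) (ω : Ω) :
    ω ∈ sgnCell hp φ E G ↔
      (by classical exact E.filter (fun x => 0 ≤ den hp φ x ω)) = G := by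
  classical
  simp only [sgnCell, Set.mem_iInter, Set.mem_ofPred_eq]
  rw [Finset.ext_iff]
  simp only [Finset.mem_filter]
  constructor
  · intro h x
    by_cases hx : x ∈ E
    · simp [hx, h x hx]
    · simp only [hx, false_and, false_iff]
      exact fun h2 => hx (hG h2)
  · intro h x hx
    have := h x
    simpa [hx] using this

lemma sum_indicator_sgnCell (hp : p ≠ ⊤) (φ : Lp X p μ →L[ℝ] ℝ) (E : Finset X) (g : Ω → ℝ)
    (ω : Ω) : ∑ G ∈ E.powerset, (sgnCell hp φ E G).indicator g ω = g ω := by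
  classical
  have h : ∀ G ∈ E.powerset, (sgnCell hp φ E G).indicator g ω =
      if E.filter (fun x => 0 ≤ den hp φ x ω) = G then g ω else 0 := by
    intro G hG
    have h1 := mem_sgnCell hp φ E G (Finset.mem_powerset.1 hG) ω
    by_cases h2 : ω ∈ sgnCell hp φ E G
    · rw [Set.indicator_of_mem h2]
      have h3 := h1.1 h2
      rw [if_pos]
      convert! h3
    · rw [Set.indicator_of_notMem h2]
      rw [if_neg]
      intro h3
      apply h2
      apply h1.2
      convert! h3
  rw [Finset.sum_congr rfl h, Finset.sum_ite_eq, if_pos]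
  exact Finset.mem_powerset.2 (Finset.filter_subset _ _)

lemma sum_nu_sgnCell (hp : p ≠ ⊤) (φ : Lp X p μ →L[ℝ] ℝ) (E : Finset X) :
    ∑ G ∈ E.powerset, (nu hp φ).real (sgnCell hp φ E G) = (nu hp φ).real Set.univ := by
  have h1 : ∀ G ∈ E.powerset, (nu hp φ).real (sgnCell hp φ E G) =
      ∫ ω, (sgnCell hp φ E G).indicator (fun _ => (1 : ℝ)) ω ∂(nu hp φ) := by
    intro G _
    rw [integral_indicator (measurable_sgnCell hp φ E G)]
    simp
  rw [Finset.sum_congr rfl h1, ← integral_finsetSum]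
  · have h2 : ∀ ω, ∑ G ∈ E.powerset, (sgnCell hp φ E G).indicator (fun _ => (1 : ℝ)) ω = 1 :=
      fun ω => sum_indicator_sgnCell hp φ E (fun _ => (1 : ℝ)) ω
    simp only [h2]
    simp
  · intro G _
    exact (integrable_const 1).indicator (measurable_sgnCell hp φ E G)

/-- on a set where the density has constant sign -/
lemma sum_abs_sgnCell (hp : p ≠ ⊤) (φ : Lp X p μ →L[ℝ] ℝ) (E : Finset X) (x : X) (hx : x ∈ E) :
    ∑ G ∈ E.powerset, |φ (ind μ p (sgnCell hp φ E G) (measurable_sgnCell hp φ E G) x)| =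
      ∫ ω, |den hp φ x ω| ∂μ := by
  have hdi := integrable_den hp φ x
  have h1 : ∀ G ∈ E.powerset,
      |φ (ind μ p (sgnCell hp φ E G) (measurable_sgnCell hp φ E G) x)| =
      ∫ ω, (sgnCell hp φ E G).indicator (fun ω => |den hp φ x ω|) ω ∂μ := by
    intro G _
    have hm := measurable_sgnCell hp φ E G
    rw [← setIntegral_den hp φ x hm, integral_indicator hm]
    by_cases hG : x ∈ G
    · have h2 : ∀ ω ∈ sgnCell hp φ E G, 0 ≤ den hp φ x ω := by
        intro ω hω
        have := (Set.mem_iInter₂.1 hω x hx)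
        exact this.2 hG
      rw [abs_of_nonneg (setIntegral_nonneg hm h2)]
      exact setIntegral_congr_fun hm (fun ω hω => (abs_of_nonneg (h2 ω hω)).symm)
    · have h2 : ∀ ω ∈ sgnCell hp φ E G, den hp φ x ω ≤ 0 := by
        intro ω hω
        have := (Set.mem_iInter₂.1 hω x hx)
        by_contra hcon
        push Not at hcon
        exact hG (this.1 hcon.le)
      rw [abs_of_nonpos (setIntegral_nonpos hm h2), ← integral_neg]
      exact setIntegral_congr_fun hm (fun ω hω => (abs_of_nonpos (h2 ω hω)).symm)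
  rw [Finset.sum_congr rfl h1, ← integral_finsetSum]
  · congr 1
    ext ω
    exact sum_indicator_sgnCell hp φ E (fun ω => |den hp φ x ω|) ω
  · intro G _
    exact hdi.abs.indicator (measurable_sgnCell hp φ E G)

/-- the discrete approximations of the measure on the dual ball -/
noncomputable def approx (hp : p ≠ ⊤) (φ : Lp X p μ →L[ℝ] ℝ) (E : Finset X)
    (f : C_c(DualBall X, ℝ)) : ℝ :=
  ∑ G ∈ E.powerset, (nu hp φ).real (sgnCell hp φ E G) *
    f (avg hp φ (sgnCell hp φ E G) (measurable_sgnCell hp φ E G))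

lemma abs_approx_le (hp : p ≠ ⊤) (φ : Lp X p μ →L[ℝ] ℝ) (E : Finset X)
    (f : C_c(DualBall X, ℝ)) (C : ℝ) (hC : ∀ z, |f z| ≤ C) :
    |approx hp φ E f| ≤ (nu hp φ).real Set.univ * C := by
  rw [← sum_nu_sgnCell hp φ E, Finset.sum_mul]
  refine (Finset.abs_sum_le_sum_abs _ _).trans (Finset.sum_le_sum (fun G _ => ?_))
  rw [abs_mul, abs_of_nonneg (measureReal_nonneg (μ := nu hp φ))]
  gcongr
  exact hC _

/-- Every functional on `L^p(μ, X)` gives a regular measure on the dual ball with the same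
`L^1`-norms of the elements of `X`. -/
theorem exists_dual_measure (hp : p ≠ ⊤) (φ : Lp X p μ →L[ℝ] ℝ)
    [MeasurableSpace (DualBall X)] [BorelSpace (DualBall X)] :
    ∃ ρ : Measure (DualBall X), IsFiniteMeasure ρ ∧ ρ.Regular ∧
      ∀ x, ∫ z, |z.1 x| ∂ρ = ∫ ω, |den hp φ x ω| ∂μ := by
  classical
  set 𝒰 : Ultrafilter (Finset X) := Ultrafilter.of atTop with h𝒰
  have hlim : ∀ f : C_c(DualBall X, ℝ), ∃ l : ℝ, Tendsto (fun E => approx hp φ E f) 𝒰 (𝓝 l) := by
    intro f
    obtain ⟨C, hC⟩ : ∃ C : ℝ, ∀ z, |f z| ≤ C := by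
      obtain ⟨C, hC⟩ := (isCompact_univ (X := DualBall X)).exists_bound_of_continuousOn
        (f := f) f.continuous.continuousOn
      exact ⟨C, fun z => hC z (Set.mem_univ z)⟩
    set R := (nu hp φ).real Set.univ * C with hR
    obtain ⟨l, -, hl⟩ := (isCompact_Icc (a := -R) (b := R)).ultrafilter_le_nhds
      (𝒰.map (fun E => approx hp φ E f)) (by
        rw [le_principal_iff]
        refine Eventually.of_forall (f := (𝒰 : Filter (Finset X))) (fun E => ?_)
        exact abs_le.1 (abs_approx_le hp φ E f C hC))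
    exact ⟨l, hl⟩
  choose L hL using hlim
  let Λ₀ : C_c(DualBall X, ℝ) →ₗ[ℝ] ℝ :=
    { toFun := L
      map_add' := fun f g => by
        refine tendsto_nhds_unique (hL (f + g)) ?_
        refine ((hL f).add (hL g)).congr (fun E => ?_)
        simp only [approx, CompactlySupportedContinuousMap.coe_add, Pi.add_apply, mul_add,
          Finset.sum_add_distrib]
      map_smul' := fun c f => by
        refine tendsto_nhds_unique (hL (c • f)) ?_
        refine ((hL f).const_mul c).congr (fun E => ?_)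
        simp only [approx, CompactlySupportedContinuousMap.coe_smul, Pi.smul_apply, smul_eq_mul,
          Finset.mul_sum]
        refine Finset.sum_congr rfl (fun G _ => ?_)
        ring }
  let Λ : C_c(DualBall X, ℝ) →ₚ[ℝ] ℝ := PositiveLinearMap.mk₀ Λ₀ (fun f hf => by
    refine ge_of_tendsto (hL f) (Eventually.of_forall (fun E => ?_))
    refine Finset.sum_nonneg (fun G _ => mul_nonneg measureReal_nonneg ?_)
    exact hf _)
  refine ⟨RealRMK.rieszMeasure Λ, inferInstance, inferInstance, fun x => ?_⟩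
  have h1 := RealRMK.integral_rieszMeasure Λ (absEval x)
  simp only [absEval_apply] at h1
  rw [h1]
  change L (absEval x) = _
  refine tendsto_nhds_unique (hL (absEval x)) ?_
  have h2 : ∀ᶠ E in (atTop : Filter (Finset X)),
      ∫ ω, |den hp φ x ω| ∂μ = approx hp φ E (absEval x) := by
    filter_upwards [eventually_ge_atTop ({x} : Finset X)] with E hE
    rw [approx, ← sum_abs_sgnCell hp φ E x (hE (Finset.mem_singleton_self x))]
    refine Finset.sum_congr rfl (fun G _ => ?_)
    rw [absEval_apply, nu_mul_abs_avg]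
  refine Tendsto.congr' (Filter.Eventually.filter_mono (Ultrafilter.of_le atTop) h2) ?_
  exact tendsto_const_nhds

end Pool.Agent.LpSeq
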