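import Pool.Agent.LpSeq.DualMeas

set_option autoImplicit false
open MeasureTheory Filter Topology Cardinal
open scoped ENNReal symmDiff

namespace Pool.Agent.LpSeq

set_option linter.unusedSectionVars false

lemma exists_small_net {X M : Type} [PseudoMetricSpace M] (f : X → M) (S : Set M) (hS : Dense S)
    (κ : Cardinal.{0}) (h : #S ≤ κ) :
    ∃ T : Set X, #T ≤ max κ ℵ₀ ∧ ∀ x, ∀ ε > 0, ∃ t ∈ T, dist (f x) (f t) < ε := by
  classical
  set J : Type := {a : S × ℕ // ∃ x, dist (f x) a.1.1 < 1 / ((a.2 : ℝ) + 1)} with hJ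
  have hc : ∀ a : J, ∃ x, dist (f x) a.1.1.1 < 1 / ((a.1.2 : ℝ) + 1) := fun a => a.2
  choose g hg using hc
  refine ⟨Set.range g, ?_, ?_⟩
  · calc #(Set.range g) ≤ #J := Cardinal.mk_range_le
      _ ≤ #(S × ℕ) := Cardinal.mk_subtype_le _
      _ ≤ max κ ℵ₀ := by
        rw [Cardinal.mk_prod]
        simp only [Cardinal.lift_id, Cardinal.mk_nat]
        calc #S * ℵ₀ ≤ κ * ℵ₀ := by gcongr
          _ ≤ max (max κ ℵ₀) ℵ₀ := Cardinal.mul_le_max κ ℵ₀
          _ = max κ ℵ₀ := by simp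
  · intro x ε hε
    obtain ⟨m, hm⟩ := exists_nat_one_div_lt (half_pos hε)
    have hm0 : (0 : ℝ) < 1 / ((m : ℝ) + 1) := by positivity
    obtain ⟨s, hs, hxs⟩ := Metric.dense_iff.1 hS (f x) _ hm0
    have hxs2 : dist (f x) s < 1 / ((m : ℝ) + 1) := by
      rw [dist_comm]
      exact Metric.mem_ball.1 hs
    refine ⟨g ⟨(⟨s, hxs⟩, m), ⟨x, hxs2⟩⟩, ⟨_, rfl⟩, ?_⟩
    have h1 := hg ⟨(⟨s, hxs⟩, m), ⟨x, hxs2⟩⟩
    simp only at h1
    calc dist (f x) (f (g ⟨(⟨s, hxs⟩, m), ⟨x, hxs2⟩⟩))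
        ≤ dist (f x) s + dist (f (g ⟨(⟨s, hxs⟩, m), ⟨x, hxs2⟩⟩)) s := dist_triangle_right _ _ _
      _ < ε / 2 + ε / 2 := by
        gcongr
        · exact hxs2.trans hm
        · exact h1.trans hm
      _ = ε := by ring

variable {Ω : Type*} [MeasurableSpace Ω] {μ : Measure Ω} [IsProbabilityMeasure μ]
  {X : Type} [NormedAddCommGroup X] [NormedSpace ℝ X]
  {p : ℝ≥0∞} [Fact (1 ≤ p)]

lemma integrable_eval [MeasurableSpace (DualBall X)] [BorelSpace (DualBall X)]
    (ρ : Measure (DualBall X)) [IsFiniteMeasure ρ] (x : X) :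
    Integrable (fun z : DualBall X => z.1 x) ρ := by
  refine Integrable.of_bound (C := ‖x‖) (continuous_eval x).measurable.aestronglyMeasurable ?_
  exact Eventually.of_forall (fun z => abs_eval_le x z)

/-- Small type of the measures on the dual ball. -/
theorem type_main (hp : p ≠ ⊤) (κ : Cardinal.{0}) (hκ : κ < distributivityNumber)
    (hM : ∀ (mB : MeasurableSpace (DualBall X)), BorelSpace (DualBall X) →
      ∀ ρ : Measure (DualBall X), IsFiniteMeasure ρ → ρ.Regular →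
        ∃ S : Set (Lp ℝ 1 ρ), Dense S ∧ #S ≤ κ)
    (hX : WStarSeqCompact X) : WStarSeqCompact (Lp X p μ) := by
  intro φ hφ
  let mB : MeasurableSpace (DualBall X) := borel (DualBall X)
  have hB : BorelSpace (DualBall X) := ⟨rfl⟩
  choose ρ hρ1 hρ2 hρ3 using fun n => exists_dual_measure hp (φ n)
  choose S hS1 hS2 using fun n => hM mB hB (ρ n) (hρ1 n) (hρ2 n)
  have hTn : ∀ n, ∃ T : Set X, #T ≤ max κ ℵ₀ ∧ ∀ x, ∀ ε > 0, ∃ t ∈ T,
      dist ((integrable_eval (ρ n) x).toL1 _) ((integrable_eval (ρ n) t).toL1 _) < ε := fun n =>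
    exists_small_net (fun x => (integrable_eval (ρ n) x).toL1 _) (S n) (hS1 n) κ (hS2 n)
  choose T hT1 hT2 using hTn
  refine main_dist hp hX φ hφ (⋃ n, T n) ?_ ?_
  · have h1 : #(⋃ n, T n) ≤ ℵ₀ * max κ ℵ₀ := by
      refine (Cardinal.mk_iUnion_le T).trans ?_
      gcongr
      · simp
      · exact ciSup_le' hT1
    refine h1.trans_lt ?_
    exact Cardinal.mul_lt_of_lt aleph0_lt_distributivityNumber.le
      aleph0_lt_distributivityNumber (max_lt hκ aleph0_lt_distributivityNumber)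
  · intro x n ε hε
    obtain ⟨t, ht, hxt⟩ := hT2 n x ε hε
    refine ⟨t, Set.mem_iUnion.2 ⟨n, ht⟩, ?_⟩
    have h1 : ∫ ω, |den hp (φ n) x ω - den hp (φ n) t ω| ∂μ =
        ∫ ω, |den hp (φ n) (x - t) ω| ∂μ := by
      refine integral_congr_ae ?_
      filter_upwards [den_sub hp (φ n) x t] with ω hω
      rw [hω]
    rw [h1, ← hρ3 n (x - t)]
    rw [dist_eq_norm, ← Integrable.toL1_sub, L1.norm_of_fun_eq_integral_norm] at hxt
    refine le_of_eq_of_le ?_ hxt.le
    congr 1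
    ext z
    simp only [map_sub, Pi.sub_apply, Real.norm_eq_abs]

/-- Small type of the measure. -/
theorem small_main {Ω : Type} [MeasurableSpace Ω] {μ : Measure Ω} [IsProbabilityMeasure μ]
    (hp : p ≠ ⊤) (S : Set (Lp ℝ 1 μ)) (hS : Dense S) (hScard : #S < distributivityNumber)
    (hX : WStarSeqCompact X) : WStarSeqCompact (Lp X p μ) := by
  intro φ hφ
  set A : S → Set Ω := fun s => {ω | (1 / 2 : ℝ) < (s.1 : Ω → ℝ) ω} with hA
  have hAm : ∀ s, MeasurableSet (A s) := fun s =>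
    measurableSet_lt measurable_const (Lp.stronglyMeasurable s.1).measurable
  obtain ⟨N, hN, hN2⟩ := denseOpen_lt hScard
    (fun s : S => {N | ∀ x, Cv (atTop ⊓ 𝓟 N) (fun n => ev hp (φ n) (A s) (hAm s) x)})
    (fun s => denseOpen_cv hX _ (norm_ev_le_one hp φ hφ _ _))
  refine finish φ hφ N hN (fun f => ?_)
  have := neBot_inf hN
  refine cv_of_indicators hp φ hφ _ (fun B hB x => ?_) f
  refine cv_of_measure_approx hp φ hφ _ B hB x (fun ε hε => ?_)
  -- approximate the indicator function of `B`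
  have hBi : Integrable (B.indicator (fun _ => (1 : ℝ))) μ := (integrable_const 1).indicator hB
  obtain ⟨s, hs, hsS⟩ := Metric.dense_iff.1 hS (hBi.toL1 _) (ε / 2) (by positivity)
  refine ⟨A ⟨s, hsS⟩, hAm _, ?_, ?_⟩
  · rw [Metric.mem_ball, dist_comm, dist_eq_norm] at hs
    have h1 : ‖hBi.toL1 _ - s‖ = ∫ ω, |B.indicator (fun _ => (1 : ℝ)) ω - s ω| ∂μ := by
      rw [L1.norm_eq_integral_norm]
      refine integral_congr_ae ?_
      filter_upwards [Lp.coeFn_sub (hBi.toL1 _) s, hBi.coeFn_toL1] with ω h2 h3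
      rw [h2, Pi.sub_apply, h3, Real.norm_eq_abs]
    rw [h1] at hs
    have hsi : Integrable (s : Ω → ℝ) μ := L1.integrable_coeFn s
    have h2 : (1 / 2 : ℝ) * μ.real (B ∆ A ⟨s, hsS⟩) ≤
        ∫ ω, |B.indicator (fun _ => (1 : ℝ)) ω - s ω| ∂μ := by
      have h3 : (1 / 2 : ℝ) * μ.real (B ∆ A ⟨s, hsS⟩) =
          ∫ ω, (B ∆ A ⟨s, hsS⟩).indicator (fun _ => (1 / 2 : ℝ)) ω ∂μ := by
        rw [integral_indicator (hB.symmDiff (hAm _))]
        simp [mul_comm]
      rw [h3]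
      refine integral_mono ((integrable_const _).indicator (hB.symmDiff (hAm _)))
        (hBi.sub hsi).abs (fun ω => ?_)
      simp only
      by_cases hω : ω ∈ B ∆ A ⟨s, hsS⟩
      · rw [Set.indicator_of_mem hω]
        rcases hω with ⟨h4, h5⟩ | ⟨h4, h5⟩
        · rw [Set.indicator_of_mem h4]
          have h6 : s ω ≤ 1 / 2 := not_lt.1 h5
          exact le_abs.2 (Or.inl (by linarith))
        · rw [Set.indicator_of_notMem h5]
          have h6 : 1 / 2 < s ω := h4
          exact le_abs.2 (Or.inr (by linarith))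
      · rw [Set.indicator_of_notMem hω]
        exact abs_nonneg _
    linarith
  · have h4 := hN2 ⟨s, hsS⟩ x
    rw [indT_eq (hAm _)]
    exact h4

/-- Density character below the splitting number. -/
theorem split_main (hp : p ≠ ⊤) (T : Set X) (hT : Dense T) (hTcard : #T < splittingNumber) :
    WStarSeqCompact (Lp X p μ) := by
  intro φ hφ
  exact main_split hp φ hφ T hTcard hT

end Pool.Agent.LpSeq
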