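import Pool.Agent.LpSeq.Core2

set_option autoImplicit false
open MeasureTheory Filter Topology Cardinal
open scoped ENNReal symmDiff

namespace Pool.Agent.LpSeq

set_option linter.unusedSectionVars false

/-- fewer than an uncountable cardinal finite sets of parameters -/
lemma mk_finset_lt {α : Type} {κ : Cardinal.{0}} (hκ : ℵ₀ < κ) (h : #α < κ) :
    #(Finset α) < κ := by
  rcases finite_or_infinite α with hf | hi
  · exact (Cardinal.lt_aleph0_of_finite (Finset α)).trans hκ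
  · rw [Cardinal.mk_finset_of_infinite]
    exact h

lemma mk_index_lt {α : Type} {κ : Cardinal.{0}} (hκ : ℵ₀ < κ) (h : #α < κ) :
    #(ℕ × α × ℚ) < κ := by
  rw [Cardinal.mk_prod, Cardinal.mk_prod]
  simp only [Cardinal.lift_id]
  have h1 : #ℚ ≤ ℵ₀ := Cardinal.mk_le_aleph0
  have h2 : #ℕ ≤ ℵ₀ := Cardinal.mk_le_aleph0
  calc #ℕ * (#α * #ℚ) ≤ ℵ₀ * (#α * ℵ₀) := by gcongr
    _ < κ := Cardinal.mul_lt_of_lt hκ.le hκ (Cardinal.mul_lt_of_lt hκ.le h hκ)

variable {Ω : Type*} [MeasurableSpace Ω] {μ : Measure Ω} [IsProbabilityMeasure μ]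
  {X : Type} [NormedAddCommGroup X] [NormedSpace ℝ X]
  {p : ℝ≥0∞} [Fact (1 ≤ p)]

/-- the level sets of the densities -/
def lev (hp : p ≠ ⊤) (φ : ℕ → Lp X p μ →L[ℝ] ℝ) (T : Set X) (i : ℕ × T × ℚ) : Set Ω :=
  {ω | (i.2.2 : ℝ) < den hp (φ i.1) (i.2.1 : X) ω}

/-- finite intersections of level sets -/
def cell (hp : p ≠ ⊤) (φ : ℕ → Lp X p μ →L[ℝ] ℝ) (T : Set X) (s : Finset (ℕ × T × ℚ)) : Set Ω :=
  ⋂ i ∈ s, lev hp φ T i

lemma measurable_lev (hp : p ≠ ⊤) (φ : ℕ → Lp X p μ →L[ℝ] ℝ) (T : Set X) (i : ℕ × T × ℚ) :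
    MeasurableSet (lev hp φ T i) :=
  measurableSet_lt measurable_const (measurable_den hp _ _)

lemma measurable_cell (hp : p ≠ ⊤) (φ : ℕ → Lp X p μ →L[ℝ] ℝ) (T : Set X)
    (s : Finset (ℕ × T × ℚ)) : MeasurableSet (cell hp φ T s) :=
  Finset.measurableSet_biInter s (fun i _ => measurable_lev hp φ T i)

lemma isPiSystem_cell (hp : p ≠ ⊤) (φ : ℕ → Lp X p μ →L[ℝ] ℝ) (T : Set X) :
    IsPiSystem (Set.range (cell hp φ T)) := by
  classical
  rintro _ ⟨s, rfl⟩ _ ⟨t, rfl⟩ _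
  refine ⟨s ∪ t, ?_⟩
  ext ω
  simp only [cell, Set.mem_iInter, Set.mem_inter_iff, Finset.mem_union]
  constructor
  · intro h
    exact ⟨fun i hi => h i (Or.inl hi), fun i hi => h i (Or.inr hi)⟩
  · rintro ⟨h1, h2⟩ i (hi | hi)
    · exact h1 i hi
    · exact h2 i hi

lemma univ_mem_cell (hp : p ≠ ⊤) (φ : ℕ → Lp X p μ →L[ℝ] ℝ) (T : Set X) :
    Set.univ ∈ Set.range (cell hp φ T) := by
  refine ⟨∅, ?_⟩
  simp [cell]

lemma measurable_den_cell (hp : p ≠ ⊤) (φ : ℕ → Lp X p μ →L[ℝ] ℝ) (T : Set X) (n : ℕ) (t : X)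
    (ht : t ∈ T) :
    Measurable[MeasurableSpace.generateFrom (Set.range (cell hp φ T))] (den hp (φ n) t) := by
  have hb : borel ℝ = MeasurableSpace.generateFrom (⋃ a : ℚ, {Set.Ioi (a : ℝ)}) :=
    Real.borel_eq_generateFrom_Ioi_rat
  rw [BorelSpace.measurable_eq (α := ℝ), hb]
  refine @measurable_generateFrom _ _ (MeasurableSpace.generateFrom (Set.range (cell hp φ T))) _ _
    (fun S hS => ?_)
  simp only [Set.mem_iUnion, Set.mem_singleton_iff] at hS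
  obtain ⟨q, rfl⟩ := hS
  apply MeasurableSpace.measurableSet_generateFrom
  refine ⟨{(n, ⟨t, ht⟩, q)}, ?_⟩
  simp [cell, lev, Set.preimage, Set.Ioi]

theorem norm_ev_le_one (hp : p ≠ ⊤) (φ : ℕ → Lp X p μ →L[ℝ] ℝ) (hφ : ∀ n, ‖φ n‖ ≤ 1) (A : Set Ω)
    (hA : MeasurableSet A) (n : ℕ) : ‖ev hp (φ n) A hA‖ ≤ 1 :=
  (norm_ev_le' hp (φ n) A hA).trans (hφ n)

/-- If fewer than `𝔥` densities are `L^1`-dense among all densities, there is a convergent
subsequence. -/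
theorem main_dist (hp : p ≠ ⊤) (hX : WStarSeqCompact X) (φ : ℕ → Lp X p μ →L[ℝ] ℝ)
    (hφ : ∀ n, ‖φ n‖ ≤ 1) (T : Set X) (hT : #T < distributivityNumber)
    (happ : ∀ x n, ∀ ε > 0, ∃ t ∈ T, ∫ ω, |den hp (φ n) x ω - den hp (φ n) t ω| ∂μ ≤ ε) :
    ∃ ψ : Lp X p μ →L[ℝ] ℝ, ‖ψ‖ ≤ 1 ∧ ∃ k : ℕ → ℕ, StrictMono k ∧
      ∀ f : Lp X p μ, Tendsto (fun n => φ (k n) f) atTop (𝓝 (ψ f)) := by
  obtain ⟨N, hN, hN2⟩ := denseOpen_lt
    (mk_finset_lt aleph0_lt_distributivityNumber (mk_index_lt aleph0_lt_distributivityNumber hT))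
    (fun s : Finset (ℕ × T × ℚ) => {N | ∀ x, Cv (atTop ⊓ 𝓟 N) (fun n =>
      ev hp (φ n) (cell hp φ T s) (measurable_cell hp φ T s) x)})
    (fun s => denseOpen_cv hX _ (norm_ev_le_one hp φ hφ _ _))
  refine finish φ hφ N hN (fun f => ?_)
  have := neBot_inf hN
  refine core hp φ hφ _ (Set.range (cell hp φ T)) (isPiSystem_cell hp φ T) ?_
    (univ_mem_cell hp φ T) ?_ Set.univ (by simp) ?_ f
  · rintro _ ⟨s, rfl⟩
    exact measurable_cell hp φ T s
  · rintro _ ⟨s, rfl⟩ x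
    have h1 := hN2 s x
    simp only [ev_apply] at h1
    rw [indT_eq (measurable_cell hp φ T s)]
    exact h1
  · intro x _ n ε hε
    obtain ⟨t, ht, hxt⟩ := happ x n ε hε
    exact ⟨_, measurable_den_cell hp φ T n t ht, integrable_den hp _ _, hxt⟩

/-- If `X` has a dense set with fewer than `𝔰` elements there is a convergent subsequence. -/
theorem main_split (hp : p ≠ ⊤) (φ : ℕ → Lp X p μ →L[ℝ] ℝ)
    (hφ : ∀ n, ‖φ n‖ ≤ 1) (T : Set X) (hT : #T < splittingNumber) (hTd : Dense T) :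
    ∃ ψ : Lp X p μ →L[ℝ] ℝ, ‖ψ‖ ≤ 1 ∧ ∃ k : ℕ → ℕ, StrictMono k ∧
      ∀ f : Lp X p μ, Tendsto (fun n => φ (k n) f) atTop (𝓝 (ψ f)) := by
  have hc : #(Finset (ℕ × T × ℚ) × T × ℚ) < splittingNumber := by
    have h1 := mk_finset_lt aleph0_lt_splittingNumber (mk_index_lt aleph0_lt_splittingNumber hT)
    rw [Cardinal.mk_prod, Cardinal.mk_prod]
    simp only [Cardinal.lift_id]
    exact Cardinal.mul_lt_of_lt aleph0_lt_splittingNumber.le h1
      (Cardinal.mul_lt_of_lt aleph0_lt_splittingNumber.le hT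
        (Cardinal.mk_le_aleph0.trans_lt aleph0_lt_splittingNumber))
  obtain ⟨N, hN, hN2⟩ := unsplit_lt hc
    (fun j => {n : ℕ | (j.2.2 : ℝ) < φ n (indT μ p (cell hp φ T j.1) (j.2.1 : X))})
  refine finish φ hφ N hN (fun f => ?_)
  have := neBot_inf hN
  have hcv : ∀ s : Finset (ℕ × T × ℚ), ∀ t ∈ T,
      Cv (atTop ⊓ 𝓟 N) (fun n => φ n (indT μ p (cell hp φ T s) t)) := by
    intro s t ht
    refine cv_of_unsplit N hN _ ‖t‖ (fun n => ?_) (fun q => hN2 (s, ⟨t, ht⟩, q))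
    rw [← Real.norm_eq_abs]
    refine ((φ n).le_opNorm _).trans ?_
    rw [indT_eq (measurable_cell hp φ T s)]
    calc ‖φ n‖ * ‖ind μ p (cell hp φ T s) (measurable_cell hp φ T s) t‖ ≤ 1 * ‖t‖ := by
          gcongr
          · exact hφ n
          · exact norm_ind_le' hp _ _ t
      _ = ‖t‖ := one_mul _
  refine core hp φ hφ _ (Set.range (cell hp φ T)) (isPiSystem_cell hp φ T) ?_
    (univ_mem_cell hp φ T) ?_ T ?_ ?_ f
  · rintro _ ⟨s, rfl⟩
    exact measurable_cell hp φ T s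
  · rintro _ ⟨s, rfl⟩ x
    have h2 := cv_closed (E := X)
      (fun n => ev hp (φ n) (cell hp φ T s) (measurable_cell hp φ T s))
      (norm_ev_le_one hp φ hφ _ _) (atTop ⊓ 𝓟 N)
    have h3 : T ⊆ {x | Cv (atTop ⊓ 𝓟 N) (fun n =>
        ev hp (φ n) (cell hp φ T s) (measurable_cell hp φ T s) x)} := by
      intro t ht
      have h4 := hcv s t ht
      rw [indT_eq (measurable_cell hp φ T s)] at h4
      exact h4
    have h5 := closure_minimal h3 h2 (hTd x)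
    rw [indT_eq (measurable_cell hp φ T s)]
    exact h5
  · refine hTd.mono ?_
    exact Submodule.subset_span
  · intro x hx n ε hε
    refine ⟨_, measurable_den_cell hp φ T n x hx, integrable_den hp _ _, ?_⟩
    simp only [sub_self, abs_zero, integral_zero]
    exact hε.le

end Pool.Agent.LpSeq
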