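import Pool.Agent.LpSeq.Density

set_option autoImplicit false
open MeasureTheory Filter Topology
open scoped ENNReal symmDiff

namespace Pool.Agent.LpSeq

set_option linter.unusedSectionVars false

section sets

variable {Ω : Type*} [MeasurableSpace Ω] {ν : Measure Ω} [IsFiniteMeasure ν]

/-- Sets whose measures are bounded below contain an infinite subfamily with all finite
intersections of positive measure. -/
lemma exists_infinite_inter (H : ℕ → Set Ω) (hH : ∀ k, MeasurableSet (H k)) (c : ℝ≥0∞)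
    (hc : 0 < c) (hν : ∀ k, c ≤ ν (H k)) :
    ∃ M : Set ℕ, M.Infinite ∧ ∀ F : Finset ℕ, (F : Set ℕ) ⊆ M → 0 < ν (⋂ k ∈ F, H k) := by
  classical
  set U : ℕ → Set Ω := fun m => ⋃ k ≥ m, H k with hU
  have hUm : ∀ m, MeasurableSet (U m) := fun m =>
    MeasurableSet.iUnion (fun k => MeasurableSet.iUnion (fun _ => hH k))
  have hanti : Antitone U := by
    intro a b hab
    apply Set.biUnion_mono (fun k hk => le_trans hab hk) (fun _ _ => le_rfl)
  have hlim := tendsto_measure_iInter_atTop (μ := ν) (fun m => (hUm m).nullMeasurableSet) hanti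
    ⟨0, measure_ne_top ν _⟩
  have hge : c ≤ ν (⋂ m, U m) := by
    refine ge_of_tendsto hlim (Eventually.of_forall (fun m => ?_))
    exact (hν m).trans (measure_mono (Set.subset_biUnion_of_mem (u := H) (le_refl m)))
  set N : Set Ω := ⋃ F ∈ {F : Finset ℕ | ν (⋂ k ∈ F, H k) = 0}, ⋂ k ∈ F, H k with hN
  have hN0 : ν N = 0 := by
    rw [hN, measure_biUnion_null_iff (Set.to_countable _)]
    intro F hF
    exact hF
  have hpos : 0 < ν ((⋂ m, U m) \ N) := by
    rw [measure_sdiff_null hN0]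
    exact hc.trans_le hge
  obtain ⟨ω, hω1, hω2⟩ := nonempty_of_measure_ne_zero hpos.ne'
  refine ⟨{k | ω ∈ H k}, ?_, ?_⟩
  · rw [Set.infinite_iff_exists_gt] <;> try infer_instance
    intro a
    have : ω ∈ U (a + 1) := Set.mem_iInter.1 hω1 (a + 1)
    simp only [hU, Set.mem_iUnion] at this
    obtain ⟨k, hk, hk2⟩ := this
    exact ⟨k, hk2, by omega⟩
  · intro F hF
    by_contra h
    have h0 : ν (⋂ k ∈ F, H k) = 0 := by simpa using h
    apply hω2
    rw [hN]
    refine Set.mem_biUnion (x := F) h0 ?_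
    exact Set.mem_iInter₂.2 (fun k hk => hF hk)

end sets

variable {Ω : Type*} [MeasurableSpace Ω] {μ : Measure Ω} [IsProbabilityMeasure μ]
  {X : Type*} [NormedAddCommGroup X] [NormedSpace ℝ X]
  {p : ℝ≥0∞} [Fact (1 ≤ p)]

/-- a set of large variation on which the signed measure is large -/
lemma exists_large_set (hp : p ≠ ⊤) (φ : Lp X p μ →L[ℝ] ℝ) (y : X) (hy : ‖y‖ ≤ 1) (ε : ℝ)
    (hε : 0 < ε) (P : Set Ω) (hP : MeasurableSet P) (h : ε ≤ φ (ind μ p P hP y)) :
    ∃ H : Set Ω, MeasurableSet H ∧ ε / 2 ≤ (nu hp φ).real H ∧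
      ∀ (A : Set Ω) (hA : MeasurableSet A), A ⊆ H →
        ε / (2 * ((nu hp φ).real Set.univ + 1)) * (nu hp φ).real A ≤ φ (ind μ p A hA y) := by
  set ν := nu hp φ with hν
  set c : ℝ := ε / (2 * (ν.real Set.univ + 1)) with hc
  have hν0 : 0 ≤ ν.real Set.univ := measureReal_nonneg
  have hc0 : 0 < c := by positivity
  set t : SignedMeasure Ω := sm hp φ y - c • ν.toSignedMeasure with ht
  obtain ⟨H, hH, hpos, hneg⟩ := t.exists_compl_positive_negative
  have htA : ∀ (A : Set Ω) (hA : MeasurableSet A), t A = φ (ind μ p A hA y) - c * ν.real A := by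
    intro A hA
    rw [ht, VectorMeasure.sub_apply, VectorMeasure.smul_apply, sm_apply hp φ y hA,
      Measure.toSignedMeasure_apply_measurable hA, smul_eq_mul]
  refine ⟨H, hH, ?_, ?_⟩
  · have h1 : t (P ∩ Hᶜ) ≤ 0 :=
      VectorMeasure.nonpos_of_restrict_le_zero _
        (VectorMeasure.restrict_le_zero_subset _ hH.compl Set.inter_subset_right hneg)
    have hPH : MeasurableSet (P ∩ H) := hP.inter hH
    have hPHc : MeasurableSet (P ∩ Hᶜ) := hP.inter hH.compl
    rw [htA _ hPHc] at h1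
    have h2 : φ (ind μ p P hP y) = φ (ind μ p (P ∩ H) hPH y) + φ (ind μ p (P ∩ Hᶜ) hPHc y) := by
      have hd : Disjoint (P ∩ H) (P ∩ Hᶜ) :=
        Disjoint.mono Set.inter_subset_right Set.inter_subset_right disjoint_compl_right
      have he : ind μ p P hP y = ind μ p ((P ∩ H) ∪ (P ∩ Hᶜ)) (hPH.union hPHc) y := by
        congr 1
        rw [Set.inter_union_compl]
      rw [he, ind_union _ _ _ _ hd, map_add]
    have h3 : φ (ind μ p (P ∩ H) hPH y) ≤ ν.real H := by
      refine (le_abs_self _).trans ((abs_le_nu hp φ hPH y).trans ?_)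
      have h4 : ν.real (P ∩ H) ≤ ν.real H := measureReal_mono Set.inter_subset_right
      calc ν.real (P ∩ H) * ‖y‖ ≤ ν.real H * 1 := by
            gcongr
        _ = ν.real H := mul_one _
    have h5 : c * ν.real (P ∩ Hᶜ) ≤ ε / 2 := by
      have h6 : ν.real (P ∩ Hᶜ) ≤ ν.real Set.univ := measureReal_mono (Set.subset_univ _)
      calc c * ν.real (P ∩ Hᶜ) ≤ c * (ν.real Set.univ + 1) := by
            gcongr
            linarith
        _ = ε / 2 := by
            rw [hc]
            field_simp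
    linarith
  · intro A hA hAH
    have h1 : 0 ≤ t A := VectorMeasure.nonneg_of_zero_le_restrict _
      (VectorMeasure.zero_le_restrict_subset _ hH hAH hpos)
    rw [htA A hA] at h1
    linarith

/-- If the densities of a sequence in the ball stay away from `0` in `L^1`, some functional stays
away from `0` on infinitely many terms. -/
lemma exists_functional (hp : p ≠ ⊤) (φ : Lp X p μ →L[ℝ] ℝ) (y : ℕ → X) (hy : ∀ k, ‖y k‖ ≤ 1)
    (ε : ℝ) (hε : 0 < ε) (h : ∀ k, ε ≤ ∫ ω, |den hp φ (y k) ω| ∂μ) :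
    ∃ (ψ : X →L[ℝ] ℝ) (δ : ℝ), 0 < δ ∧ ∃ᶠ k in atTop, δ ≤ |ψ (y k)| := by
  classical
  -- choose signs
  have h1 : ∀ k, ∃ σ : ℝ, |σ| = 1 ∧ ∃ (P : Set Ω) (hP : MeasurableSet P),
      ε / 2 ≤ φ (ind μ p P hP (σ • y k)) := by
    intro k
    set g := den hp φ (y k) with hg
    have hgi : Integrable g μ := integrable_den hp φ (y k)
    have hgm : Measurable g := measurable_den hp φ (y k)
    have hP : MeasurableSet {ω | 0 ≤ g ω} := measurableSet_le measurable_const hgm
    have e1 : ∫ ω, |g ω| ∂μ = (∫ ω in {ω | 0 ≤ g ω}, g ω ∂μ) - ∫ ω in {ω | 0 ≤ g ω}ᶜ, g ω ∂μ := by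
      rw [← integral_add_compl hP hgi.abs]
      have e2 : ∫ ω in {ω | 0 ≤ g ω}, |g ω| ∂μ = ∫ ω in {ω | 0 ≤ g ω}, g ω ∂μ :=
        setIntegral_congr_fun hP (fun ω hω => abs_of_nonneg hω)
      have e3 : ∫ ω in {ω | 0 ≤ g ω}ᶜ, |g ω| ∂μ = - ∫ ω in {ω | 0 ≤ g ω}ᶜ, g ω ∂μ := by
        rw [← integral_neg]
        refine setIntegral_congr_fun hP.compl (fun ω hω => ?_)
        have : g ω < 0 := by simpa using hω
        exact abs_of_neg this
      rw [e2, e3]
      ring
    have e4 := h k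
    rw [e1, setIntegral_den hp φ _ hP, setIntegral_den hp φ _ hP.compl] at e4
    by_cases hcase : ε / 2 ≤ φ (ind μ p {ω | 0 ≤ g ω} hP (y k))
    · exact ⟨1, by simp, _, hP, by simpa using hcase⟩
    · refine ⟨-1, by simp, _, hP.compl, ?_⟩
      rw [ind_smul, map_smul, smul_eq_mul]
      push Not at hcase
      linarith
  choose σ hσ P hP hPk using h1
  have h2 : ∀ k, ‖σ k • y k‖ ≤ 1 := by
    intro k
    rw [norm_smul, Real.norm_eq_abs, hσ k, one_mul]
    exact hy k
  have h3 := fun k => exists_large_set hp φ (σ k • y k) (h2 k) (ε / 2) (by positivity) (P k) (hP k)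
    (hPk k)
  choose H hH hν hHA using h3
  set ν := nu hp φ with hνdef
  set c : ℝ := ε / 2 / (2 * (ν.real Set.univ + 1)) with hc
  have hν0 : 0 ≤ ν.real Set.univ := measureReal_nonneg
  have hc0 : 0 < c := by positivity
  obtain ⟨M, hM, hMF⟩ := exists_infinite_inter (ν := ν) H hH (ENNReal.ofReal (ε / 2 / 2))
    (by simp only [ENNReal.ofReal_pos]; positivity) (fun k => by
      rw [← ofReal_measureReal (measure_ne_top ν _)]
      exact ENNReal.ofReal_le_ofReal (hν k))
  -- functionals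
  have hHF : ∀ F : Finset ℕ, MeasurableSet (⋂ k ∈ F, H k) := fun F =>
    Finset.measurableSet_biInter F (fun k _ => hH k)
  set u : Finset ℕ → (X →L[ℝ] ℝ) := fun F =>
    (ν.real (⋂ k ∈ F, H k))⁻¹ • ev hp φ (⋂ k ∈ F, H k) (hHF F) with hu
  have hu1 : ∀ F, ‖u F‖ ≤ 1 := by
    intro F
    refine ContinuousLinearMap.opNorm_le_bound _ zero_le_one (fun x => ?_)
    have h4 := abs_le_nu hp φ (hHF F) x
    simp only [hu, smul_apply, ev_apply, smul_eq_mul, norm_mul, norm_inv, Real.norm_eq_abs]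
    rw [abs_of_nonneg (measureReal_nonneg (μ := ν))]
    by_cases h0 : ν.real (⋂ k ∈ F, H k) = 0
    · rw [h0]
      simp
    · have h5 : 0 < ν.real (⋂ k ∈ F, H k) := lt_of_le_of_ne measureReal_nonneg (Ne.symm h0)
      rw [inv_mul_le_iff₀ h5, one_mul]
      exact h4
  have hu2 : ∀ F : Finset ℕ, (F : Set ℕ) ⊆ M → ∀ k ∈ F, c ≤ u F (σ k • y k) := by
    intro F hF k hk
    have h5 : 0 < ν.real (⋂ k ∈ F, H k) := by
      rw [measureReal_def]
      exact ENNReal.toReal_pos (hMF F hF).ne' (measure_ne_top ν _)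
    simp only [hu, smul_apply, smul_eq_mul, ev_apply]
    rw [le_inv_mul_iff₀ h5, mul_comm]
    exact hHA k (⋂ k ∈ F, H k) (hHF F) (Set.biInter_subset_of_mem hk)
  -- a cluster point along the finite subsets of `M`
  haveI : Nonempty M := hM.nonempty.to_subtype
  set v : Finset M → WeakDual ℝ X := fun G =>
    StrongDual.toWeakDual (u (G.map (Function.Embedding.subtype _))) with hv
  set 𝒰 : Ultrafilter (Finset M) := Ultrafilter.of atTop with h𝒰
  have hcomp := WeakDual.isCompact_closedBall (𝕜 := ℝ) (E := X) 0 1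
  have hmem : ∀ G, v G ∈ WeakDual.toStrongDual ⁻¹' Metric.closedBall (0 : StrongDual ℝ X) 1 := by
    intro G
    simp only [Set.mem_preimage, hv, mem_closedBall_zero_iff]
    exact hu1 _
  obtain ⟨ψ, -, hψ⟩ := hcomp.ultrafilter_le_nhds (𝒰.map v) (by
    rw [le_principal_iff]
    exact Eventually.of_forall (f := (𝒰 : Filter (Finset M))) hmem)
  have hψ2 : ∀ k ∈ M, c ≤ (WeakDual.toStrongDual ψ) (σ k • y k) := by
    intro k hk
    have h6 : Tendsto (fun G => (v G) (σ k • y k)) 𝒰 (𝓝 (ψ (σ k • y k))) := by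
      have h7 : Tendsto v 𝒰 (𝓝 ψ) := hψ
      exact (WeakDual.eval_continuous (σ k • y k)).continuousAt.tendsto.comp h7
    refine ge_of_tendsto h6 ?_
    have h8 : ∀ᶠ G in (atTop : Filter (Finset M)), c ≤ (v G) (σ k • y k) := by
      filter_upwards [eventually_ge_atTop ({⟨k, hk⟩} : Finset M)] with G hG
      apply hu2
      · intro j hj
        simp only [Finset.coe_map, Set.mem_image] at hj
        obtain ⟨⟨j', hj'⟩, -, rfl⟩ := hj
        exact hj'
      · simp only [Finset.mem_map]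
        exact ⟨⟨k, hk⟩, hG (by simp), rfl⟩
    exact (Ultrafilter.of_le atTop) h8
  refine ⟨WeakDual.toStrongDual ψ, c, hc0, ?_⟩
  rw [Nat.frequently_atTop_iff_infinite]
  refine hM.mono (fun k hk => ?_)
  have h9 := hψ2 k hk
  rw [map_smul, smul_eq_mul] at h9
  calc c ≤ σ k * (WeakDual.toStrongDual ψ) (y k) := h9
    _ ≤ |σ k * (WeakDual.toStrongDual ψ) (y k)| := le_abs_self _
    _ = |(WeakDual.toStrongDual ψ) (y k)| := by rw [abs_mul, hσ k, one_mul]

end Pool.Agent.LpSeq
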